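import Pool.Agent.H3.PM.Cnj
import Pool.Agent.H1.PLN.Ccl
import Pool.Agent.H26.PM.Tsp
import Pool.Agent.H5.GEO.ToO

/-!
# Plan M: the labels of a member, and the parts of `VPlS` and `PlnMS`

`VNum`, `VDat`: the labels of a member without the height: those of lemma PLANE (`Dat`) and the
affine chart at the window `w₀`. `MNum`, `MDat`: the same with the height: the labels of the height
at the window `w₁` and the affine chart. `MDat.mkN`: the size of the slope of the height, relative to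
the chart, in the direction of `c 2`, on the box of the label. The parts: `LabV`, `LabM` (the labels
exist), `ShvS`, `ShnS` (the sheets of `c 2` and of the height), `FlsS` (the slopes of the sheets are
separated), `MkS` (the slopes are not too large), `ArrS` (the arrays).
-/

set_option autoImplicit false

namespace Pool.PM

open Finset Real MvPolynomial
open Pool.Agent.H49.Ent Pool.Agent.H32.Dense Pool.STK Pool.KA Pool.KSAT Pool.K2S Pool.PB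
  Pool.STAT Pool.GEN Pool.M3F Pool.KM7 Pool.S6C Pool.JPN
open Pool.PLN (Nums Dat nlabw_sub)
open Pool.GEO (CsQ)

variable {m J : ℕ}

/-! ### The labels without the height -/

/-- The numbers of a member: those of the labels of `c 0`, `c 1`, `c 2` at the two windows, the
precisions `β` of the affine chart at `w₀`, and the exponent `sl` of the slopes of the chart of
`c 2`. -/
structure VNum extends Nums where
  β : ℕ → ℝ
  sl : ℝ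

/-- The fall of `c 2`, relative to the affine chart. -/
def VNum.fall (N : VNum) : ℝ := N.g 2 - N.s - N.β 2

/-- **The labels of a member.** `toDat`: lemma PLANE. `U`, `u`, `Q`: the affine chart at `w₀`. -/
structure VDat (N : VNum) (φ : ℝ) (K : ℕ) (F : Fam m J) (c : ℕ → Fin m) (A : F.Ω → Prop)
    extends Dat N.toNums φ K F c A where
  U : Type
  u : PtT F → U
  u' : LnT F → U
  Q : U → ℕ → PN
  gU : ℕ → ℕ
  tri : ∀ v, TriN (Q v)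
  aff : ∀ v i, (Q v i).totalDegree ≤ 1
  clsU : ∀ ω, A ω → u (ptr F J ω) = u' (slam F ⌊N.w0 * J⌋₊ ω)
  posU : ∀ ω, A ω → ∀ i < 3, |ntc F c Q u ω i| ≤ 1 / 2 ^ gU i
  numU : ∀ i < 3, |(gU i : ℝ) - N.β i * J| ≤ φ * J
  slU : ∀ ω, A ω → ∀ i ≤ 2, ∀ l < i,
    |eval 0 (pderiv l (Q (u (ptr F J ω)) i))| ≤ Real.exp (φ * J)
  slV : ∀ ω, A ω → ∀ l < 3,
    |eval 0 (pderiv l (Q (u (ptr F J ω)) 3))| ≤ Real.exp ((N.sl + φ) * J)

namespace VDat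

variable {N : VNum} {φ φ' : ℝ} {K : ℕ} {F : Fam m J} {c : ℕ → Fin m} {A B : F.Ω → Prop}

/-- The labels on a smaller event. -/
def sub (d : VDat N φ K F c A) (hB : Sub B A) : VDat N φ K F c B :=
  { toDat := d.toDat.sub hB
    U := d.U
    u := d.u
    u' := d.u'
    Q := d.Q
    gU := d.gU
    tri := d.tri
    aff := d.aff
    clsU := fun ω hω => d.clsU ω (hB ω hω)
    posU := fun ω hω => d.posU ω (hB ω hω)
    numU := d.numU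
    slU := fun ω hω => d.slU ω (hB ω hω)
    slV := fun ω hω => d.slV ω (hB ω hω) }

/-- The labels with a larger slack. -/
def mono (d : VDat N φ K F c A) (h : φ ≤ φ') : VDat N φ' K F c A :=
  have hJ : φ * J ≤ φ' * J := mul_le_mul_of_nonneg_right h (Nat.cast_nonneg J)
  { toDat := d.toDat.mono h
    U := d.U
    u := d.u
    u' := d.u'
    Q := d.Q
    gU := d.gU
    tri := d.tri
    aff := d.aff
    clsU := d.clsU
    posU := d.posU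
    numU := fun i hi => (d.numU i hi).trans hJ
    slU := fun ω hω i hi l hl => (d.slU ω hω i hi l hl).trans (Real.exp_le_exp.2 hJ)
    slV := fun ω hω l hl => (d.slV ω hω l hl).trans (Real.exp_le_exp.2 (by linarith)) }

/-- The labels which are used in `VPl` and `PlnM`. -/
def lb (d : VDat N φ K F c A) : PLab F where
  g := d.gU
  V₀ := d.U
  V₁ := d.V
  P := d.Q
  z₀ := d.u
  z₀' := d.u'
  z₁ := d.z
  z₁' := d.z'

end VDat

/-! ### The labels with the height -/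

/-- The numbers of a member, with the precision `gN` and the weight `sN` of the height at `w₁`. -/
structure MNum extends VNum where
  gN : ℝ
  sN : ℝ

/-- The precision of the height at `w₁`. -/
def MNum.P1 (N : MNum) : ℝ := N.gN - N.sN

/-- **The labels of a member, with the height.** `lab3`: the same label at the window `w₁` with the
height, divided by `2 ^ (sN J)`. `Pr`, `Qh`, `rz`: the equation of the label, of degree `D`. -/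
structure MDat (N : MNum) (φ : ℝ) (K D : ℕ) (F : Fam m J) (c : ℕ → Fin m) (A : F.Ω → Prop)
    extends VDat N.toVNum φ K F c A where
  gN : ℕ → ℕ
  lab3 : NLabW F c 3 ⌊N.w1 * J⌋₊ ⌊N.sN * J⌋₊ gN K L A z z' P
  sg_eq : sg = 0
  gN_eq : ∀ i < 3, gN i = g' i
  numN : |(gN 3 : ℝ) - N.gN * J| ≤ φ * J
  topN : gN 3 ≤ J
  winN : ∀ i < 4, ⌊N.w1 * J⌋₊ ≤ wid ⌊N.w1 * J⌋₊ gN i + kap
  posN : ∀ ω, A ω → |ntc F c Q u ω 3| ≤ 1 / 2 ^ gU 3
  numUN : |(gU 3 : ℝ) - N.β 3 * J| ≤ φ * J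
  Pr : ℕ
  Qh : V → MvPolynomial (Option (Fin 4)) ℝ
  rz : V → ℝ
  Pr_W : ⌊N.w1 * J⌋₊ ≤ Pr
  Pr_g : Pr ≤ gN 3
  Pr_ge : (gN 3 : ℝ) ≤ Pr + φ * J
  Pr_wid : ∀ i < 4, wid ⌊N.w1 * J⌋₊ gN i ≤ Pr
  csq : ∀ ω, A ω → CsQ 3 D ⌊N.w1 * J⌋₊ Pr gN (P (z (ptr F J ω))) (Qh (z (ptr F J ω)))
    (rz (z (ptr F J ω)))
  rz_ge : ∀ ω, A ω → 1 ≤ ((2 ^ (Pr - ⌊N.w1 * J⌋₊) : ℕ) : ℝ) * rz (z (ptr F J ω))
  rz_le : ∀ ω, A ω → ((2 ^ (Pr - ⌊N.w1 * J⌋₊) : ℕ) : ℝ) * rz (z (ptr F J ω)) ≤ Real.exp (φ * J)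

namespace MDat

variable {N : MNum} {φ φ' : ℝ} {K D : ℕ} {F : Fam m J} {c : ℕ → Fin m} {A B : F.Ω → Prop}

/-- The labels on a smaller event. -/
def sub (d : MDat N φ K D F c A) (hB : Sub B A) : MDat N φ K D F c B :=
  { toVDat := d.toVDat.sub hB
    gN := d.gN
    lab3 := nlabw_sub d.lab3 hB
    sg_eq := d.sg_eq
    gN_eq := d.gN_eq
    numN := d.numN
    topN := d.topN
    winN := d.winN
    posN := fun ω hω => d.posN ω (hB ω hω)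
    numUN := d.numUN
    Pr := d.Pr
    Qh := d.Qh
    rz := d.rz
    Pr_W := d.Pr_W
    Pr_g := d.Pr_g
    Pr_ge := d.Pr_ge
    Pr_wid := d.Pr_wid
    csq := fun ω hω => d.csq ω (hB ω hω)
    rz_ge := fun ω hω => d.rz_ge ω (hB ω hω)
    rz_le := fun ω hω => d.rz_le ω (hB ω hω) }

/-- The labels with a larger slack. -/
def mono (d : MDat N φ K D F c A) (h : φ ≤ φ') : MDat N φ' K D F c A :=
  have hJ : φ * J ≤ φ' * J := mul_le_mul_of_nonneg_right h (Nat.cast_nonneg J)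
  { toVDat := d.toVDat.mono h
    gN := d.gN
    lab3 := d.lab3
    sg_eq := d.sg_eq
    gN_eq := d.gN_eq
    numN := d.numN.trans hJ
    topN := d.topN
    winN := d.winN
    posN := d.posN
    numUN := d.numUN.trans hJ
    Pr := d.Pr
    Qh := d.Qh
    rz := d.rz
    Pr_W := d.Pr_W
    Pr_g := d.Pr_g
    Pr_ge := d.Pr_ge.trans (by linarith)
    Pr_wid := d.Pr_wid
    csq := d.csq
    rz_ge := d.rz_ge
    rz_le := fun ω hω => (d.rz_le ω hω).trans (Real.exp_le_exp.2 hJ) }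

theorem lb_ok (d : MDat N φ K D F c A) : d.lb.Ok A c ⌊N.w0 * J⌋₊ ⌊N.w1 * J⌋₊ := by
  refine ⟨d.tri, d.aff, d.clsU, d.lab.cls, fun ω hω i hi => ?_⟩
  rcases Nat.lt_or_ge i 3 with h | h
  · exact d.posU ω hω i h
  · have e1 : i = 3 := by omega
    subst e1
    exact d.posN ω hω

/-- The slope of the height relative to the chart, in the direction of `c 2`, at the point `b`. -/
noncomputable def dN (d : MDat N φ K D F c A) (κ : d.V) (v : d.U) (b : ℕ → ℝ) : ℝ :=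
  2 ^ ⌊N.sN * J⌋₊ * eval b (pderiv 3 (d.P κ 4)) - eval b (pderiv 3 (d.Q v 4))

/-- **The size of the slope of the height** in natural units on the box of the label. -/
noncomputable def mkN (d : MDat N φ K D F c A) (κ : d.V) (v : d.U) : ℝ :=
  2 ^ d.gU 3 / 2 ^ d.gU 2 * sSup ((fun b => |d.dN κ v b|) ''
    {b : ℕ → ℝ | CLO.Bxr 4 (wid ⌊N.w1 * J⌋₊ d.gN) (d.P κ) 4 b})

/-- The size at a sample, at least `1`. -/
noncomputable def mo (d : MDat N φ K D F c A) (ω : F.Ω) : ℝ :=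
  max 1 (d.mkN (d.z (ptr F J ω)) (d.u (ptr F J ω)))

end MDat

/-! ### The parts -/

section cls

/-- Pairs of samples of one line in the window `w₀`. -/
noncomputable abbrev q2 (F : Fam m J) (A : F.Ω → Prop) (W : ℕ) : F.Ω × F.Ω → ℝ :=
  P2 (Pool.Agent.H49.Ent.cond F.p A True) (slam F W)

/-- **The labels exist**, without the height. -/
def LabV (S : PCl m) (c : ℕ → Fin m) (N : VNum) (K : ℕ) : Prop :=
  ∀ φ : ℝ, 0 < φ → ∃ κ : ℝ, 0 < κ ∧ Bas S (fun _ F A => ∃ A' : F.Ω → Prop, Sub A' A ∧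
    κ * Pe F.p A ≤ Pe F.p A' ∧ Nonempty (VDat N φ K F c A'))

/-- **The labels exist**, with the height. -/
def LabM (S : PCl m) (c : ℕ → Fin m) (N : MNum) (K D : ℕ) : Prop :=
  ∀ φ : ℝ, 0 < φ → ∃ κ : ℝ, 0 < κ ∧ Bas S (fun _ F A => ∃ A' : F.Ω → Prop, Sub A' A ∧
    κ * Pe F.p A ≤ Pe F.p A' ∧ Nonempty (MDat N φ K D F c A'))

/-- **The sheets of `c 2`**, with the loss `b`. -/
def ShvS (S : PCl m) (c : ℕ → Fin m) (N : VNum) (K : ℕ) (b c₀ : ℝ) : Prop :=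
  ∃ φ : ℝ, 0 < φ ∧ Bas S (fun J F A => ∀ d : VDat N φ K F c A,
    ∃ lv : d.V → d.U → Fin 4 → ℝ, Pe (q2 F A ⌊N.w0 * J⌋₊) (fun e =>
      ¬ d.lb.Shv c ⌊N.w0 * J⌋₊ ⌊b * J⌋₊ ⌊(N.fall - b) * J⌋₊ lv e) ≤ c₀)

/-- **The slopes of the sheets of `c 2` are separated**: `b` is the loss of the sheets, `b'` the
separation. -/
def FlsS (S : PCl m) (c : ℕ → Fin m) (N : VNum) (K : ℕ) (b b' c₀ : ℝ) : Prop :=
  ∃ φ : ℝ, 0 < φ ∧ Bas S (fun J F A => ∀ (d : VDat N φ K F c A) (lv : d.V → d.U → Fin 4 → ℝ),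
    Pe (q2 F A ⌊N.w0 * J⌋₊) (fun e =>
      d.lb.Shv c ⌊N.w0 * J⌋₊ ⌊b * J⌋₊ ⌊(N.fall - b) * J⌋₊ lv e ∧
      d.lb.Shv c ⌊N.w0 * J⌋₊ ⌊b * J⌋₊ ⌊(N.fall - b) * J⌋₊ lv e.swap ∧
      1 / 2 ^ ⌊b * J⌋₊ ≤ |nt F ⌊N.w0 * J⌋₊ e.1 - nt F ⌊N.w0 * J⌋₊ e.2| ∧
      ¬ d.lb.Fls ⌊b' * J⌋₊ lv e) ≤ c₀)

/-- **The slopes of the height are not too large.** -/
def MkS (S : PCl m) (c : ℕ → Fin m) (N : MNum) (K D : ℕ) (R : ℝ) : Prop :=
  ∃ φ : ℝ, 0 < φ ∧ Bas S (fun J F A => ∀ d : MDat N φ K D F c A,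
    Pe F.p A / 2 ≤ Pe F.p (fun ω => A ω ∧ d.mo ω ≤ 2 ^ ⌊R * J⌋₊))

/-- **The sheets of the height**, with the loss `b`. `μ`: the size of the slopes, the same for all
labels up to the loss. -/
def ShnS (S : PCl m) (c : ℕ → Fin m) (N : MNum) (K D : ℕ) (b c₀ : ℝ) : Prop :=
  ∃ φ : ℝ, 0 < φ ∧ Bas S (fun J F A => ∀ (d : MDat N φ K D F c A) (μ : ℝ),
    (∀ ω, A ω → μ ≤ d.mo ω ∧ d.mo ω ≤ μ * Real.exp (φ * J)) →
    ∃ ln : d.V → d.U → Fin 4 → ℝ, Pe (q2 F A ⌊N.w0 * J⌋₊) (fun e =>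
      ¬ d.lb.Shn c ⌊N.w0 * J⌋₊ ⌊b * J⌋₊ ⌊(N.fall - b) * J⌋₊ ⌊(N.P1 - N.β 3 - b) * J⌋₊ ln μ e) ≤
        c₀)

/-- **The arrays**: `b` is the loss of the sheets; `C`: the constant of `PlnMS`. -/
def ArrS (S : PCl m) (c : ℕ → Fin m) (N : MNum) (K D : ℕ) (b s θ C c₁ c₀ : ℝ) : Prop :=
  ∃ (K' n₀ : ℕ) (hK : 1 ≤ K') (φ : ℝ), 0 < φ ∧ Bas S (fun J F A => ∀ (d : MDat N φ K D F c A)
    (μ : ℝ) (lv ln : d.V → d.U → Fin 4 → ℝ),
    (∀ ω, A ω → μ ≤ d.mo ω ∧ d.mo ω ≤ μ * Real.exp (φ * J)) →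
    Pe (q2 F A ⌊N.w0 * J⌋₊) (fun e =>
      ¬ d.lb.Shv c ⌊N.w0 * J⌋₊ ⌊b * J⌋₊ ⌊(N.fall - b) * J⌋₊ lv e) ≤ c₁ →
    Pe (q2 F A ⌊N.w0 * J⌋₊) (fun e =>
      ¬ d.lb.Shn c ⌊N.w0 * J⌋₊ ⌊b * J⌋₊ ⌊(N.fall - b) * J⌋₊ ⌊(N.P1 - N.β 3 - b) * J⌋₊ ln μ e) ≤
        c₁ →
    ∃ (br : F.Ω × F.Ω → Fin n₀) (a : F.Ω × F.Ω → (Fin 3 → Fin (K' + 1)) → ℝ)
      (b₁ : F.Ω → (Fin 3 → Fin (K' + 1)) → ℝ) (χ : d.U → Fin 3 → ℝ) (M : F.Ω × F.Ω → ℝ)
      (E₁ : F.Ω × F.Ω → Prop),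
      d.lb.Arr hK A c ⌊N.w0 * J⌋₊ ⌊N.w1 * J⌋₊ ⌊2 * C * s * J⌋₊ ⌊θ * J⌋₊
        ⌊(N.fall + C * (s + θ)) * J⌋₊ ⌊(N.fall - C * s) * J⌋₊ ⌊(N.P1 - N.β 3 - C * s) * J⌋₊
        ⌊N.sN * J⌋₊ ⌊(N.P1 + N.sN - C * (s + θ)) * J⌋₊ ⌊C * (s + θ) * J⌋₊ lv ln br a b₁ χ M E₁ ∧
      (∀ e, E₁ e → μ ≤ 2 ^ ⌊b * J⌋₊ * (M e + 2 ^ ⌊(N.fall - C * s) * J⌋₊ /
        2 ^ ⌊(N.P1 - N.β 3 - C * s) * J⌋₊)) ∧
      Pe (q2 F A ⌊N.w0 * J⌋₊) (fun e => ¬ E₁ e) ≤ c₀)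

end cls

end Pool.PM
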