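import Pool.Agent.H3.PM.Ars
import Pool.Agent.H58.ARR.Fin
import Pool.Agent.H71.MKC.Mkq
import Pool.Agent.H86.GEO.Fbr
import Pool.Agent.H1.PLN.Inp2

/-!
# The arrays of a class, from the facts about the class

`arrS`: the arrays of a class.
-/

set_option autoImplicit false

namespace Pool.TUB

open Finset Real MvPolynomial
open Pool.Agent.H49.Ent Pool.Agent.H32.Dense Pool.STK Pool.KA Pool.KSAT Pool.K2S Pool.PB
  Pool.GEN Pool.M3F Pool.KAF Pool.KAL Pool.KS3 Pool.KJA Pool.KM7 Pool.S6C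
open Pool.PM (PLab MNum MDat q2 ArrS)

/-- **The arrays of a class.** `Cl`: the exponent of the slopes of the chart of `c 2` is at most
`Cl y`. -/
theorem arrS (hKP : KP 3) {c₀ : ℝ} (hc₀ : 0 < c₀) {Cl : ℝ} (_hCl : 0 ≤ Cl) (D : ℕ) :
    ∃ c₁ Ca : ℝ, 0 < c₁ ∧ ∀ {m : ℕ} {S : PCl m},
    (∀ (τ : ℝ) (J : ℕ) (F : Fam m J) (A : F.Ω → Prop), S.St τ J F A →
      F.Tr ∧ F.Tm (τ * J) ∧ F.Rb (τ * J) ∧ Real.exp (-(τ * J)) ≤ Pe F.p A) →
    (∀ (τ : ℝ) (J : ℕ) (F : Fam m J) (A : F.Ω → Prop), S.St τ J F A → Pool.GEN.Gd F) →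
    ∀ {c : ℕ → Fin m} {N : MNum} {K : ℕ} {y cc C s θ : ℝ}, 1 ≤ K → Ca ≤ C → 0 < s → 0 < θ →
    0 ≤ y → C * y ≤ s → C * (s + θ) ≤ N.fall → C * (s + θ) ≤ cc → 0 ≤ N.w0 → N.w0 ≤ N.w1 →
    N.w1 < 1 → N.w1 - N.w0 ≤ y → (∀ i < 3, N.g i < 1) → N.s = 0 → N.sl ≤ Cl * y →
    (∀ i < 2, N.g i ≤ N.β i + y) → N.w0 ≤ N.β 2 + y → (∀ i < 2, N.β i ≤ N.β 2 + y) →
    (∀ ρ : ℝ, 0 < ρ → ExvY S N.w1 (fun J F ω (i : Fin 3) => F.X J ω (c i))
      ((∑ l ∈ range 3, (1 - N.g l)) - ρ)) → N.β 3 + cc ≤ N.P1 →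
    (∀ i < 3, N.β i + N.fall + cc ≤ N.gN) → 0 ≤ N.sN → N.gN ≤ 1 →
    ArrS S c N K D s s θ C c₁ c₀ := by
  obtain ⟨c₁, hc₁, hfin⟩ := arrS_of hc₀
  obtain ⟨Cb, Cr, hCb, hCr, hfb⟩ := for_br D hc₁
  obtain ⟨Ca, hfin⟩ := hfin Cb hCb
  refine ⟨c₁, max (max Ca 4) (max Cr (100 * Cl)), hc₁, ?_⟩
  intro m S hmem hgd c N K y cc C s θ hK hCa hs hθ hy hCy hf hcc hw0 hw01 hw1 hwy hg1 hs0 hsl hgβ
    hw0β hβ hex hP1 hgN hsN hgN1
  have hCa1 : Ca ≤ C := (le_max_left _ _).trans ((le_max_left _ _).trans hCa)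
  have hC4 : 4 ≤ C := (le_max_right _ _).trans ((le_max_left _ _).trans hCa)
  have hCr' : Cr ≤ C := (le_max_left _ _).trans ((le_max_right _ _).trans hCa)
  have hCl' : 100 * Cl ≤ C := (le_max_right _ _).trans ((le_max_right _ _).trans hCa)
  have hy4 : 4 * y ≤ s := (mul_le_mul_of_nonneg_right hC4 hy).trans hCy
  have hsl' : N.sl ≤ s / 100 := by
    have h1 : 100 * Cl * y ≤ C * y := mul_le_mul_of_nonneg_right hCl' hy
    linarith
  have hCrs : Cr * s ≤ C * (s + θ) := by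
    have h1 : Cr * s ≤ C * s := mul_le_mul_of_nonneg_right hCr' hs.le
    have h2 : 0 ≤ C * θ := mul_nonneg (by linarith) hθ.le
    linarith
  have hpe : ∀ (τ : ℝ) (J : ℕ) (F : Fam m J) (A : F.Ω → Prop), S.St τ J F A → 0 < Pe F.p A :=
    fun τ J F A hA => lt_of_lt_of_le (Real.exp_pos _) (hmem τ J F A hA).2.2.2
  have hw0s : N.w0 ≤ N.β 2 + s := by linarith
  have hβs : ∀ i < 2, N.β i ≤ N.β 2 + s := fun i hi => by
    have := hβ i hi
    linarith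
  obtain ⟨γ, hγ⟩ : ∃ γ : ℝ, γ = min (1 - N.w1) (min (1 - N.g 0) (min (1 - N.g 1) (1 - N.g 2))) :=
    ⟨_, rfl⟩
  have hγ0 : 0 < γ := by
    rw [hγ]
    exact lt_min (by linarith) (lt_min (by linarith [hg1 0 (by norm_num)])
      (lt_min (by linarith [hg1 1 (by norm_num)]) (by linarith [hg1 2 (by norm_num)])))
  have hγ1 : γ ≤ 1 - N.w1 := hγ.trans_le (min_le_left _ _)
  have hγg : ∀ l < 3, N.g l + γ ≤ 1 := by
    intro l hl
    have h1 : γ ≤ 1 - N.g l := by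
      rcases (show l = 0 ∨ l = 1 ∨ l = 2 by omega) with rfl | rfl | rfl
      · exact hγ.trans_le ((min_le_right _ _).trans (min_le_left _ _))
      · exact hγ.trans_le ((min_le_right _ _).trans ((min_le_right _ _).trans (min_le_left _ _)))
      · exact hγ.trans_le ((min_le_right _ _).trans ((min_le_right _ _).trans (min_le_right _ _)))
    linarith
  -- the fullness of the digits
  have hSf : SfS S c N K D s := by
    refine sfS_of hmem hKP (y := s) hw0 hw01 hw1.le hs le_rfl (by linarith) hsl' hw0s hβs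
      (hex (s / 4) (by linarith)) ?_
    have e1 : N.fall = N.g 2 - N.s - N.β 2 := rfl
    have h0 := hgβ 0 (by norm_num)
    have h1 := hgβ 1 (by norm_num)
    rw [Finset.sum_range_succ, Finset.sum_range_succ, Finset.sum_range_one,
      Finset.sum_range_succ, Finset.sum_range_succ, Finset.sum_range_one, e1, hs0]
    linarith
  have hDr : DrS S c N K D s := drS_of S c K D hw0 hs hsl' hw0s hβs
  exact hfin ⟨1, one_pos, 0, fun J _ F A hA => hpe 1 J F A hA⟩ hCa1 hs hθ hf hcc hw0 hw01 hw0s hβs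
    hP1 hgN hsN hgN1 hSf hDr
    (Pool.MKS71.mk_cmp hK hpe hw0 hw01 hγ0 (by linarith) hγg (Pool.PLN.tmWn_reg hmem _) hex hs hc₁)
    (hfb hmem hgd hw0 hw01 hw1.le hs hwy (by linarith) hex (by linarith) hw0s hgβ
      (hCrs.trans hf) (fun i hi => by
        have := hgN i hi
        linarith) hSf hDr)

end Pool.TUB
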