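import Pool.Agent.H3.PM.Cnj
import Pool.Agent.H15.GEO.Aok

/-!
# Plan M: all the fields of the arrays from their values at one point

`arr_of`: if both arrays of every pair of the event `E` satisfy `AOK` at the position of the first
point in its cell, then `Arr` holds on `E`, with `M e` = the larger one of `1` and the natural sizes
of the first coefficients of the two arrays.
-/

set_option autoImplicit false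

namespace Pool.PM

open Finset Real MvPolynomial
open Pool.Agent.H49.Ent Pool.Agent.H32.Dense Pool.STK Pool.KA Pool.KSAT Pool.K2S Pool.PB
  Pool.STAT Pool.GEN Pool.M3F Pool.KM7 Pool.S6C Pool.JPN
open Pool.JMN (shf)
open Pool.SPN (sg1)
open Pool.TUB (AOK)

variable {m J : ℕ}

/-- The larger one of `1` and all the numbers `f i`, `f' i`. -/
noncomputable def mx6 (f f' : Fin 3 → ℝ) : ℝ :=
  max 1 (max (max (f 0) (max (f 1) (f 2))) (max (f' 0) (max (f' 1) (f' 2))))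

theorem one_mx6 (f f' : Fin 3 → ℝ) : 1 ≤ mx6 f f' := le_max_left _ _

theorem le_mx6 (f f' : Fin 3 → ℝ) (i : Fin 3) : f i ≤ mx6 f f' ∧ f' i ≤ mx6 f f' := by
  unfold mx6
  fin_cases i <;> constructor <;> simp

theorem mx6_le {f f' : Fin 3 → ℝ} {U : ℝ} (h1 : 1 ≤ U) (h : ∀ i, f i ≤ U) (h' : ∀ i, f' i ≤ U) :
    mx6 f f' ≤ U :=
  max_le h1 (max_le (max_le (h 0) (max_le (h 1) (h 2))) (max_le (h' 0) (max_le (h' 1) (h' 2))))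

theorem mx6_cases (f f' : Fin 3 → ℝ) :
    mx6 f f' = 1 ∨ ∃ i, mx6 f f' ≤ f i ∨ mx6 f f' ≤ f' i := by
  by_contra hc
  push Not at hc
  obtain ⟨h1, h2⟩ := hc
  have h3 : mx6 f f' ≤ max 1 (max (max (f 0) (max (f 1) (f 2))) (max (f' 0) (max (f' 1) (f' 2)))) :=
    le_refl _
  rcases le_max_iff.1 h3 with h4 | h4
  · exact h1 (le_antisymm h4 (one_mx6 f f'))
  · rcases le_max_iff.1 h4 with h5 | h5
    · rcases le_max_iff.1 h5 with h6 | h6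
      · exact absurd h6 (not_le.2 (h2 0).1)
      · rcases le_max_iff.1 h6 with h7 | h7
        · exact absurd h7 (not_le.2 (h2 1).1)
        · exact absurd h7 (not_le.2 (h2 2).1)
    · rcases le_max_iff.1 h5 with h6 | h6
      · exact absurd h6 (not_le.2 (h2 0).2)
      · rcases le_max_iff.1 h6 with h7 | h7
        · exact absurd h7 (not_le.2 (h2 1).2)
        · exact absurd h7 (not_le.2 (h2 2).2)

/-- **All the fields of the arrays**, the comparison of `μ` with an additive error. -/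
theorem arr_of' {K n₁ : ℕ} (hK : 1 ≤ K) {F : Fam m J} (l : PLab F) {A : F.Ω → Prop}
    {c : ℕ → Fin m} {w₀ w₁ : ℕ} (ok : l.Ok A c w₀ w₁) {h θ d L Ln sg Pn G hb : ℕ}
    {lv ln : l.V₁ → l.V₀ → Fin 4 → ℝ}
    (AF : l.V₁ → l.V₀ → ℕ → (Fin 3 → ℤ) → Fin n₁ → (Fin 3 → Fin (K + 1)) → ℝ)
    (BF : l.V₁ → l.V₀ → ℕ → (Fin 3 → ℤ) → (Fin 3 → Fin (K + 1)) → ℝ)
    (χ : l.V₀ → Fin 3 → ℝ) (br : F.Ω × F.Ω → Fin n₁) (E : F.Ω × F.Ω → Prop)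
    {U τ Λ₁ Λ₂ Gg ε μ : ℝ}
    (hEA : ∀ e, E e → A e.1 ∧ A e.2)
    (ha : ∀ e, E e → AOK hK l.g d
      (AF (l.z₁ (ptr F J e.2)) (l.z₀ (ptr F J e.1)) (F.T e.1) (ce 3 F c l.P l.z₀ l.g d e.1) (br e))
      (yc 3 F c l.P l.z₀ l.g d e.1) (χ (l.z₀ (ptr F J e.1))) (l.sh lv e.1 e.2) (l.sh ln e.1 e.2)
      (F.x e.1 (c 3) / 2 ^ sg) (1 / 2 ^ (sg + l.g 3 + d)) U τ (Λ₁ + Λ₂ * μ) Gg ε)
    (hb' : ∀ e, E e → AOK hK l.g d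
      (BF (l.z₁ (ptr F J e.1)) (l.z₀ (ptr F J e.1)) (F.T e.1) (ce 3 F c l.P l.z₀ l.g d e.1))
      (yc 3 F c l.P l.z₀ l.g d e.1) (χ (l.z₀ (ptr F J e.1))) (l.sh lv e.1 e.1) (l.sh ln e.1 e.1)
      (F.x e.1 (c 3) / 2 ^ sg) (1 / 2 ^ (sg + l.g 3 + d)) U τ (Λ₁ + Λ₂ * μ) Gg ε)
    (hμ : ∀ e, E e → μ ≤ 2 ^ hb * (max 1 (|gr hK (yc 3 F c l.P l.z₀ l.g d e.1)
      (BF (l.z₁ (ptr F J e.1)) (l.z₀ (ptr F J e.1)) (F.T e.1) (ce 3 F c l.P l.z₀ l.g d e.1))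
      (χ (l.z₀ (ptr F J e.1))) 2| / (1 / 2 ^ (sg + l.g 3 + d))) + 2 ^ L / 2 ^ Ln))
    (hU1 : 1 ≤ U) (hU : U ≤ 2 ^ (L + h)) (hτ : τ ≤ 1 / 2 ^ θ) (hΛ₂ : 0 ≤ Λ₂)
    (hΛ : Λ₁ + Λ₂ * (2 ^ hb * (2 ^ L / 2 ^ Ln)) ≤ 2 ^ h / 2 ^ Ln)
    (hΛ' : Λ₂ * 2 ^ hb ≤ 2 ^ h / 2 ^ L) (hG : Gg ≤ 2 ^ G) (hε : ε ≤ 1 / 2 ^ Pn) :
    ∃ M : F.Ω × F.Ω → ℝ, l.Arr hK A c w₀ w₁ h θ d L Ln sg Pn G lv ln br
      (fun e => AF (l.z₁' (slam F w₁ e.2)) (l.z₀' (slam F w₀ e.1)) (F.T e.1)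
        (ce 3 F c l.P l.z₀ l.g d e.1) (br e))
      (fun ω => BF (l.z₁' (slam F w₁ ω)) (l.z₀' (slam F w₀ ω)) (F.T ω)
        (ce 3 F c l.P l.z₀ l.g d ω)) χ M E ∧
      (∀ e, E e → μ ≤ 2 ^ hb * (M e + 2 ^ L / 2 ^ Ln)) ∧ ∀ e, E e → M e ≤ U := by
  classical
  obtain ⟨u, hu⟩ : ∃ u : ℝ, u = 1 / 2 ^ (sg + l.g 3 + d) := ⟨_, rfl⟩
  have hu0 : 0 < u := by rw [hu]; positivity
  obtain ⟨ga, hga⟩ : ∃ ga : F.Ω × F.Ω → Fin 3 → ℝ, ∀ e i, ga e i =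
      |gr hK (yc 3 F c l.P l.z₀ l.g d e.1) (AF (l.z₁ (ptr F J e.2)) (l.z₀ (ptr F J e.1)) (F.T e.1)
        (ce 3 F c l.P l.z₀ l.g d e.1) (br e)) (χ (l.z₀ (ptr F J e.1))) i| / u :=
    ⟨fun e i => _, fun e i => rfl⟩
  obtain ⟨gb, hgb⟩ : ∃ gb : F.Ω × F.Ω → Fin 3 → ℝ, ∀ e i, gb e i =
      |gr hK (yc 3 F c l.P l.z₀ l.g d e.1) (BF (l.z₁ (ptr F J e.1)) (l.z₀ (ptr F J e.1)) (F.T e.1)
        (ce 3 F c l.P l.z₀ l.g d e.1)) (χ (l.z₀ (ptr F J e.1))) i| / u :=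
    ⟨fun e i => _, fun e i => rfl⟩
  -- the two forms of the arrays agree on `E`
  have eA : ∀ e, E e → AF (l.z₁' (slam F w₁ e.2)) (l.z₀' (slam F w₀ e.1)) (F.T e.1)
      (ce 3 F c l.P l.z₀ l.g d e.1) (br e) = AF (l.z₁ (ptr F J e.2)) (l.z₀ (ptr F J e.1)) (F.T e.1)
        (ce 3 F c l.P l.z₀ l.g d e.1) (br e) := by
    intro e he
    rw [ok.cls₁ e.2 (hEA e he).2, ok.cls₀ e.1 (hEA e he).1]
  have eB : ∀ e, E e → BF (l.z₁' (slam F w₁ e.1)) (l.z₀' (slam F w₀ e.1)) (F.T e.1)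
      (ce 3 F c l.P l.z₀ l.g d e.1) = BF (l.z₁ (ptr F J e.1)) (l.z₀ (ptr F J e.1)) (F.T e.1)
        (ce 3 F c l.P l.z₀ l.g d e.1) := by
    intro e he
    rw [ok.cls₁ e.1 (hEA e he).1, ok.cls₀ e.1 (hEA e he).1]
  have hM1 : ∀ e, 1 ≤ mx6 (ga e) (gb e) := fun e => one_mx6 _ _
  have hup : ∀ e i, |gr hK (yc 3 F c l.P l.z₀ l.g d e.1) (AF (l.z₁ (ptr F J e.2))
      (l.z₀ (ptr F J e.1)) (F.T e.1) (ce 3 F c l.P l.z₀ l.g d e.1) (br e))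
      (χ (l.z₀ (ptr F J e.1))) i| ≤ mx6 (ga e) (gb e) * u ∧
      |gr hK (yc 3 F c l.P l.z₀ l.g d e.1) (BF (l.z₁ (ptr F J e.1)) (l.z₀ (ptr F J e.1)) (F.T e.1)
        (ce 3 F c l.P l.z₀ l.g d e.1)) (χ (l.z₀ (ptr F J e.1))) i| ≤ mx6 (ga e) (gb e) * u := by
    intro e i
    obtain ⟨h1, h2⟩ := le_mx6 (ga e) (gb e) i
    rw [hga, div_le_iff₀ hu0] at h1
    rw [hgb, div_le_iff₀ hu0] at h2
    exact ⟨h1, h2⟩
  have hMU : ∀ e, E e → mx6 (ga e) (gb e) ≤ U := by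
    intro e he
    refine mx6_le hU1 (fun i => ?_) fun i => ?_
    · rw [hga, div_le_iff₀ hu0, hu]
      exact (ha e he).up i
    · rw [hgb, div_le_iff₀ hu0, hu]
      exact (hb' e he).up i
  have hμM : ∀ e, E e → μ ≤ 2 ^ hb * (mx6 (ga e) (gb e) + 2 ^ L / 2 ^ Ln) := by
    intro e he
    refine (hμ e he).trans (mul_le_mul_of_nonneg_left (add_le_add (max_le (hM1 e) ?_) le_rfl)
      (by positivity))
    have h1 := (le_mx6 (ga e) (gb e) 2).2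
    rw [hgb, hu] at h1
    exact h1
  have hlk : ∀ e, E e → (Λ₁ + Λ₂ * μ) * u ≤
      2 ^ h * u * (1 / 2 ^ Ln + mx6 (ga e) (gb e) / 2 ^ L) := by
    intro e he
    have h1 : Λ₂ * μ ≤ Λ₂ * (2 ^ hb * (mx6 (ga e) (gb e) + 2 ^ L / 2 ^ Ln)) :=
      mul_le_mul_of_nonneg_left (hμM e he) hΛ₂
    have h2 : Λ₂ * (2 ^ hb * (mx6 (ga e) (gb e) + 2 ^ L / 2 ^ Ln)) =
      (Λ₂ * 2 ^ hb) * mx6 (ga e) (gb e) + Λ₂ * (2 ^ hb * (2 ^ L / 2 ^ Ln)) := by ring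
    have h3 : (Λ₂ * 2 ^ hb) * mx6 (ga e) (gb e) ≤ 2 ^ h / 2 ^ L * mx6 (ga e) (gb e) :=
      mul_le_mul_of_nonneg_right hΛ' (by linarith [hM1 e])
    calc (Λ₁ + Λ₂ * μ) * u ≤ (2 ^ h / 2 ^ Ln + 2 ^ h / 2 ^ L * mx6 (ga e) (gb e)) * u := by
          refine mul_le_mul_of_nonneg_right ?_ hu0.le
          rw [h2] at h1
          linarith
      _ = _ := by ring
  have hlips : ∀ z z' : Fin 3 → ℝ, 0 ≤ ∑ i : Fin 3, |z i - z' i| / 2 ^ (l.g i + d) := fun z z' =>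
    Finset.sum_nonneg fun i _ => by positivity
  refine ⟨fun e => mx6 (ga e) (gb e), ?_, hμM, hMU⟩
  refine { da := ?_, db := ?_, na := ?_, nb := ?_, ga := ?_, gb := ?_, one := fun e _ => hM1 e,
           mle := fun e he => (hMU e he).trans hU, up := ?_, lo := ?_, hi := ?_, lka := ?_,
           lkb := ?_ }
  · intro e e' _ _ _ _ h1 h2
    simp only [AA, Prod.mk.injEq] at h1
    simp only [Pool.JPN.WW, Prod.mk.injEq] at h2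
    have hT : F.T e.1 = F.T e'.1 := congrArg Prod.fst h2.1
    show AF (l.z₁' (slam F w₁ e.2)) (l.z₀' (slam F w₀ e.1)) (F.T e.1)
        (ce 3 F c l.P l.z₀ l.g d e.1) (br e) = AF (l.z₁' (slam F w₁ e'.2))
        (l.z₀' (slam F w₀ e'.1)) (F.T e'.1) (ce 3 F c l.P l.z₀ l.g d e'.1) (br e')
    rw [h1.1, h2.2.1, hT, h2.2.2.1, h2.2.2.2]
  · intro ω ω' _ _ h1 h2 h3 h4
    have hT : F.T ω = F.T ω' := congrArg Prod.fst h2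
    show BF (l.z₁' (slam F w₁ ω)) (l.z₀' (slam F w₀ ω)) (F.T ω)
        (ce 3 F c l.P l.z₀ l.g d ω) = BF (l.z₁' (slam F w₁ ω')) (l.z₀' (slam F w₀ ω')) (F.T ω')
        (ce 3 F c l.P l.z₀ l.g d ω')
    rw [h1, h3, hT, h4]
  · intro e he _
    show |F.x e.1 (c 3) / 2 ^ sg - Pool.JMN.ev (AF (l.z₁' (slam F w₁ e.2)) (l.z₀' (slam F w₀ e.1))
      (F.T e.1) (ce 3 F c l.P l.z₀ l.g d e.1) (br e)) (yc 3 F c l.P l.z₀ l.g d e.1)| ≤ _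
    rw [eA e he]
    exact (ha e he).val.trans hε
  · intro e he _
    show |F.x e.1 (c 3) / 2 ^ sg - Pool.JMN.ev (BF (l.z₁' (slam F w₁ e.1)) (l.z₀' (slam F w₀ e.1))
      (F.T e.1) (ce 3 F c l.P l.z₀ l.g d e.1)) (yc 3 F c l.P l.z₀ l.g d e.1)| ≤ _
    rw [eB e he]
    exact (hb' e he).val.trans hε
  · intro e he _ z z' hz hz'
    show |Pool.JMN.ev (AF (l.z₁' (slam F w₁ e.2)) (l.z₀' (slam F w₀ e.1))
      (F.T e.1) (ce 3 F c l.P l.z₀ l.g d e.1) (br e)) z - Pool.JMN.ev (AF (l.z₁' (slam F w₁ e.2))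
      (l.z₀' (slam F w₀ e.1)) (F.T e.1) (ce 3 F c l.P l.z₀ l.g d e.1) (br e)) z'| ≤ _
    rw [eA e he]
    exact ((ha e he).lip z z' hz hz').trans (mul_le_mul_of_nonneg_right hG (hlips z z'))
  · intro e he _ z z' hz hz'
    show |Pool.JMN.ev (BF (l.z₁' (slam F w₁ e.1)) (l.z₀' (slam F w₀ e.1))
      (F.T e.1) (ce 3 F c l.P l.z₀ l.g d e.1)) z - Pool.JMN.ev (BF (l.z₁' (slam F w₁ e.1))
      (l.z₀' (slam F w₀ e.1)) (F.T e.1) (ce 3 F c l.P l.z₀ l.g d e.1)) z'| ≤ _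
    rw [eB e he]
    exact ((hb' e he).lip z z' hz hz').trans (mul_le_mul_of_nonneg_right hG (hlips z z'))
  · intro e he _ i
    have h1 := hup e i
    rw [hu] at h1
    show |gr hK (yc 3 F c l.P l.z₀ l.g d e.1) (AF (l.z₁' (slam F w₁ e.2)) (l.z₀' (slam F w₀ e.1))
      (F.T e.1) (ce 3 F c l.P l.z₀ l.g d e.1) (br e)) (χ (l.z₀ (ptr F J e.1))) i| ≤ _ ∧
      |gr hK (yc 3 F c l.P l.z₀ l.g d e.1) (BF (l.z₁' (slam F w₁ e.1)) (l.z₀' (slam F w₀ e.1))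
        (F.T e.1) (ce 3 F c l.P l.z₀ l.g d e.1)) (χ (l.z₀ (ptr F J e.1))) i| ≤ _
    rw [eA e he, eB e he]
    exact h1
  · intro e he _
    rcases mx6_cases (ga e) (gb e) with h1 | ⟨i, h1⟩
    · exact Or.inl h1
    · refine Or.inr ⟨i, ?_⟩
      show _ ≤ |gr hK (yc 3 F c l.P l.z₀ l.g d e.1) (AF (l.z₁' (slam F w₁ e.2))
        (l.z₀' (slam F w₀ e.1)) (F.T e.1) (ce 3 F c l.P l.z₀ l.g d e.1) (br e))
        (χ (l.z₀ (ptr F J e.1))) i| ∨ _ ≤ |gr hK (yc 3 F c l.P l.z₀ l.g d e.1)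
        (BF (l.z₁' (slam F w₁ e.1)) (l.z₀' (slam F w₀ e.1))
        (F.T e.1) (ce 3 F c l.P l.z₀ l.g d e.1)) (χ (l.z₀ (ptr F J e.1))) i|
      rw [eA e he, eB e he]
      refine h1.imp (fun h2 => ?_) fun h2 => ?_
      · rw [hga, le_div_iff₀ hu0, hu] at h2
        exact h2
      · rw [hgb, le_div_iff₀ hu0, hu] at h2
        exact h2
  · intro e he _ al hal
    have h1 := (ha e he).hi (mx6 (ga e) (gb e) * u) (fun i => (hup e i).1) al hal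
    have h2 := (hb' e he).hi (mx6 (ga e) (gb e) * u) (fun i => (hup e i).2) al hal
    have h0 : 0 ≤ mx6 (ga e) (gb e) * u := mul_nonneg (by linarith [hM1 e]) hu0.le
    have h3 : τ * (mx6 (ga e) (gb e) * u) ≤ mx6 (ga e) (gb e) * u / 2 ^ θ := by
      calc τ * (mx6 (ga e) (gb e) * u) ≤ 1 / 2 ^ θ * (mx6 (ga e) (gb e) * u) :=
            mul_le_mul_of_nonneg_right hτ h0
        _ = _ := by ring
    rw [hu] at h1 h2 h3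
    show |shf (yc 3 F c l.P l.z₀ l.g d e.1) (AF (l.z₁' (slam F w₁ e.2)) (l.z₀' (slam F w₀ e.1))
      (F.T e.1) (ce 3 F c l.P l.z₀ l.g d e.1) (br e)) al| ≤ _ ∧
      |shf (yc 3 F c l.P l.z₀ l.g d e.1) (BF (l.z₁' (slam F w₁ e.1)) (l.z₀' (slam F w₀ e.1))
        (F.T e.1) (ce 3 F c l.P l.z₀ l.g d e.1)) al| ≤ _
    rw [eA e he, eB e he]
    exact ⟨h1.trans h3, h2.trans h3⟩
  · intro e he _ i
    have h1 := hlk e he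
    rw [hu] at h1
    rw [eA e he]
    exact ((ha e he).lk i).trans h1
  · intro e he _ i
    have h1 := hlk e he
    rw [hu] at h1
    rw [eB e he]
    exact ((hb' e he).lk i).trans h1

/-- **All the fields of the arrays.** -/
theorem arr_of {K n₁ : ℕ} (hK : 1 ≤ K) {F : Fam m J} (l : PLab F) {A : F.Ω → Prop}
    {c : ℕ → Fin m} {w₀ w₁ : ℕ} (ok : l.Ok A c w₀ w₁) {h θ d L Ln sg Pn G hb : ℕ}
    {lv ln : l.V₁ → l.V₀ → Fin 4 → ℝ}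
    (AF : l.V₁ → l.V₀ → ℕ → (Fin 3 → ℤ) → Fin n₁ → (Fin 3 → Fin (K + 1)) → ℝ)
    (BF : l.V₁ → l.V₀ → ℕ → (Fin 3 → ℤ) → (Fin 3 → Fin (K + 1)) → ℝ)
    (χ : l.V₀ → Fin 3 → ℝ) (br : F.Ω × F.Ω → Fin n₁) (E : F.Ω × F.Ω → Prop)
    {U τ Λ₁ Λ₂ Gg ε μ : ℝ}
    (hEA : ∀ e, E e → A e.1 ∧ A e.2)
    (ha : ∀ e, E e → AOK hK l.g d
      (AF (l.z₁ (ptr F J e.2)) (l.z₀ (ptr F J e.1)) (F.T e.1) (ce 3 F c l.P l.z₀ l.g d e.1) (br e))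
      (yc 3 F c l.P l.z₀ l.g d e.1) (χ (l.z₀ (ptr F J e.1))) (l.sh lv e.1 e.2) (l.sh ln e.1 e.2)
      (F.x e.1 (c 3) / 2 ^ sg) (1 / 2 ^ (sg + l.g 3 + d)) U τ (Λ₁ + Λ₂ * μ) Gg ε)
    (hb' : ∀ e, E e → AOK hK l.g d
      (BF (l.z₁ (ptr F J e.1)) (l.z₀ (ptr F J e.1)) (F.T e.1) (ce 3 F c l.P l.z₀ l.g d e.1))
      (yc 3 F c l.P l.z₀ l.g d e.1) (χ (l.z₀ (ptr F J e.1))) (l.sh lv e.1 e.1) (l.sh ln e.1 e.1)
      (F.x e.1 (c 3) / 2 ^ sg) (1 / 2 ^ (sg + l.g 3 + d)) U τ (Λ₁ + Λ₂ * μ) Gg ε)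
    (hμ : ∀ e, E e → μ ≤ 2 ^ hb * max 1 (|gr hK (yc 3 F c l.P l.z₀ l.g d e.1)
      (BF (l.z₁ (ptr F J e.1)) (l.z₀ (ptr F J e.1)) (F.T e.1) (ce 3 F c l.P l.z₀ l.g d e.1))
      (χ (l.z₀ (ptr F J e.1))) 2| / (1 / 2 ^ (sg + l.g 3 + d))))
    (hU1 : 1 ≤ U) (hU : U ≤ 2 ^ (L + h)) (hτ : τ ≤ 1 / 2 ^ θ) (hΛ₂ : 0 ≤ Λ₂)
    (hΛ : Λ₁ + Λ₂ * (2 ^ hb * (2 ^ L / 2 ^ Ln)) ≤ 2 ^ h / 2 ^ Ln)
    (hΛ' : Λ₂ * 2 ^ hb ≤ 2 ^ h / 2 ^ L) (hG : Gg ≤ 2 ^ G) (hε : ε ≤ 1 / 2 ^ Pn) :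
    ∃ M : F.Ω × F.Ω → ℝ, l.Arr hK A c w₀ w₁ h θ d L Ln sg Pn G lv ln br
      (fun e => AF (l.z₁' (slam F w₁ e.2)) (l.z₀' (slam F w₀ e.1)) (F.T e.1)
        (ce 3 F c l.P l.z₀ l.g d e.1) (br e))
      (fun ω => BF (l.z₁' (slam F w₁ ω)) (l.z₀' (slam F w₀ ω)) (F.T ω)
        (ce 3 F c l.P l.z₀ l.g d ω)) χ M E ∧
      (∀ e, E e → μ ≤ 2 ^ hb * (M e + 2 ^ L / 2 ^ Ln)) ∧ ∀ e, E e → M e ≤ U := by
  refine arr_of' hK l ok AF BF χ br E hEA ha hb' (fun e he => (hμ e he).trans ?_) hU1 hU hτ hΛ₂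
    hΛ hΛ' hG hε
  exact mul_le_mul_of_nonneg_left (le_add_of_nonneg_right (by positivity)) (by positivity)

end Pool.PM
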