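import Pool.Agent.H15.GEO.Asm
import Pool.Agent.H69.ARR.Nbs

/-!
# The arrays, in a class

`FbS`, `MkC`: the branches of the foreign leaf and the comparison of the slopes, in a class
(statements). `numA_of`: the numbers. `arrS_of`: the arrays of a class from near-constancy, from the
branches and from the comparison of the slopes.
-/

set_option autoImplicit false

namespace Pool.TUB

open Finset Real MvPolynomial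
open Pool.Agent.H49.Ent Pool.Agent.H32.Dense Pool.STK Pool.KA Pool.KSAT Pool.K2S Pool.PB
  Pool.STAT Pool.STAT.CLO Pool.GEN Pool.M3F Pool.KAF Pool.KAL Pool.KS3 Pool.KJA Pool.IEN Pool.S6C
  Pool.KM7
open Pool.PM (PLab MNum MDat q2 ArrS)

/-- **The branches of the foreign leaf**, in a class: `b` is the loss of the sheets, `Cb b` the loss
of the branches. -/
def FbS {m : ℕ} (S : PCl m) (c : ℕ → Fin m) (N : MNum) (K D : ℕ) (b Cb c₀ : ℝ) : Prop :=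
  ∃ (K₂ n₀ : ℕ) (φ : ℝ), 0 < φ ∧ Bas S (fun J F A => ∀ (d : MDat N φ K D F c A)
    (lv : d.V → d.U → Fin 4 → ℝ) (Q : F.Ω × F.Ω → ℝ), IsLaw Q →
    (∀ e, Q e ≤ 2 * q2 F A ⌊N.w0 * J⌋₊ e) →
    (∀ e, 0 < Q e → d.lb.Shv c ⌊N.w0 * J⌋₊ ⌊b * J⌋₊ ⌊(N.fall - b) * J⌋₊ lv e) →
    ∃ aF : d.V × (d.U × ℕ) → (Fin 4 → ℤ) → Fin D → Fin n₀ → MvPolynomial (Fin 4) ℝ,
      (∀ γ b' k i, (aF γ b' k i).totalDegree ≤ K₂) ∧
      ms Q (fun e => ¬ ∃ k i, BrS d.lb c ⌊N.w1 * J⌋₊ ⌊N.w0 * J⌋₊ d.Pr ⌊N.sN * J⌋₊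
        ⌊(N.fall - b) * J⌋₊ ⌊Cb * b * J⌋₊ ⌊Cb * b * J⌋₊ lv aF e k i) ≤ c₀)

/-- **The slope of the height at the samples** is nearly its size on the label, in a class. -/
def MkC {m : ℕ} (S : PCl m) (c : ℕ → Fin m) (N : MNum) (K D : ℕ) (b c₀ : ℝ) : Prop :=
  ∃ φ : ℝ, 0 < φ ∧ Bas S (fun J F A => ∀ d : MDat N φ K D F c A,
    Pe F.p (fun ω => A ω ∧ ¬ d.mo ω ≤ 2 ^ ⌊b * J⌋₊ * max 1 (2 ^ d.gU 3 / 2 ^ d.gU 2 *
      |d.dN (d.z (ptr F J ω)) (d.u (ptr F J ω)) (px c (ptr F J ω))|)) ≤ c₀ * Pe F.p A)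

/-- **The numbers of a member of the class.** -/
theorem numA_of {N : MNum} {Cb Cs C cc s θ φ : ℝ} {kC J Pr : ℕ} {g : ℕ → ℕ} (hCb : 1 ≤ Cb)
    (hCs : 1 ≤ Cs) (hC : 4 * (Cb + Cs) + 60 ≤ C) (hs : 0 < s) (hθ : 0 < θ)
    (hJ : 2 * ((kC : ℝ) + 20) ≤ s * J) (hφ : φ * J ≤ s * J / 100)
    (hf : C * (s + θ) ≤ N.fall) (hcc : C * (s + θ) ≤ cc) (hw0 : 0 ≤ N.w0)
    (hw0β : N.w0 ≤ N.β 2 + s) (hβ : ∀ i < 2, N.β i ≤ N.β 2 + s) (hP1 : N.β 3 + cc ≤ N.P1)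
    (hgN : ∀ i < 3, N.β i + N.fall + cc ≤ N.gN) (hsN : 0 ≤ N.sN) (hgN1 : N.gN ≤ 1)
    (hPW : ⌊N.w1 * J⌋₊ ≤ Pr) (hPJ : Pr ≤ J) (hPr : (N.gN - 2 * φ) * J ≤ Pr)
    (hg : ∀ i < 3, |(g i : ℝ) - N.β i * J| ≤ φ * J) (hg3 : |(g 3 : ℝ) - N.β 3 * J| ≤ φ * J) :
    NumA ⌊N.w1 * J⌋₊ ⌊N.w0 * J⌋₊ Pr ⌊N.sN * J⌋₊ ⌊(N.fall - s) * J⌋₊ ⌊Cb * s * J⌋₊ ⌊Cs * s * J⌋₊
      ⌊s * J⌋₊ ⌊(Cb + 17) * s * J⌋₊ ⌊2 * s * J⌋₊ ⌊(N.fall + C * (s + θ)) * J⌋₊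
      ⌊(N.P1 - N.β 3 - s) * J⌋₊ ⌊3 * s * J⌋₊ kC ⌊Cb * s * J⌋₊ ⌊2 * C * s * J⌋₊ ⌊θ * J⌋₊
      ⌊(N.fall - C * s) * J⌋₊ ⌊(N.P1 - N.β 3 - C * s) * J⌋₊ ⌊(N.P1 + N.sN - C * (s + θ)) * J⌋₊
      ⌊C * (s + θ) * J⌋₊ ⌊s * J⌋₊ g J := by
  have hJ0 : (0 : ℝ) ≤ J := Nat.cast_nonneg J
  have hkC : (0 : ℝ) ≤ kC := Nat.cast_nonneg kC
  have hP1e : N.P1 = N.gN - N.sN := rfl
  -- the products
  obtain ⟨x, hx⟩ : ∃ x : ℝ, x = s * J := ⟨_, rfl⟩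
  obtain ⟨t, ht⟩ : ∃ t : ℝ, t = θ * J := ⟨_, rfl⟩
  obtain ⟨f, hfe⟩ : ∃ f : ℝ, f = N.fall * J := ⟨_, rfl⟩
  obtain ⟨p, hpe⟩ : ∃ p : ℝ, p = N.gN * J := ⟨_, rfl⟩
  obtain ⟨σ, hσe⟩ : ∃ σ : ℝ, σ = N.sN * J := ⟨_, rfl⟩
  obtain ⟨b3, hb3⟩ : ∃ b3 : ℝ, b3 = N.β 3 * J := ⟨_, rfl⟩
  obtain ⟨b2, hb2⟩ : ∃ b2 : ℝ, b2 = N.β 2 * J := ⟨_, rfl⟩
  obtain ⟨u, hu⟩ : ∃ u : ℝ, u = φ * J := ⟨_, rfl⟩
  obtain ⟨Bx, hBx⟩ : ∃ Bx : ℝ, Bx = Cb * x := ⟨_, rfl⟩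
  obtain ⟨Sx, hSx⟩ : ∃ Sx : ℝ, Sx = Cs * x := ⟨_, rfl⟩
  obtain ⟨Cx, hCx⟩ : ∃ Cx : ℝ, Cx = C * x := ⟨_, rfl⟩
  obtain ⟨Ct, hCt⟩ : ∃ Ct : ℝ, Ct = C * t := ⟨_, rfl⟩
  obtain ⟨cJ, hcJ⟩ : ∃ cJ : ℝ, cJ = cc * J := ⟨_, rfl⟩
  have x0 : 0 ≤ x := by
    rw [hx]
    positivity
  have t0 : 0 ≤ t := by
    rw [ht]
    positivity
  have B1 : x ≤ Bx := by
    rw [hBx]
    nlinarith
  have S1 : x ≤ Sx := by
    rw [hSx]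
    nlinarith
  have C1 : 4 * Bx + 4 * Sx + 60 * x ≤ Cx := by
    rw [hBx, hSx, hCx]
    nlinarith
  have C2 : 60 * t ≤ Ct := by
    rw [hCt]
    nlinarith
  have eCJ : C * (s + θ) * J = Cx + Ct := by
    rw [hCx, hCt, hx, ht]
    ring
  have f1 : Cx + Ct ≤ f := by
    rw [← eCJ, hfe]
    exact mul_le_mul_of_nonneg_right hf hJ0
  have c1 : Cx + Ct ≤ cJ := by
    rw [← eCJ, hcJ]
    exact mul_le_mul_of_nonneg_right hcc hJ0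
  have w1 : N.w0 * J ≤ b2 + x := by
    rw [hb2, hx, ← add_mul]
    exact mul_le_mul_of_nonneg_right hw0β hJ0
  have w2 : 0 ≤ N.w0 * J := mul_nonneg hw0 hJ0
  have be : ∀ i < 2, N.β i * J ≤ b2 + x := fun i hi => by
    rw [hb2, hx, ← add_mul]
    exact mul_le_mul_of_nonneg_right (hβ i hi) hJ0
  have g1 : ∀ i < 3, N.β i * J + f + cJ ≤ p := fun i hi => by
    have h := mul_le_mul_of_nonneg_right (hgN i hi) hJ0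
    rw [hfe, hcJ, hpe]
    linarith
  have g2 := g1 2 (by norm_num)
  rw [← hb2] at g2
  have p1 : b3 + cJ ≤ p - σ := by
    have h := mul_le_mul_of_nonneg_right hP1 hJ0
    rw [hP1e] at h
    rw [hb3, hcJ, hpe, hσe]
    linarith
  have p2 : p ≤ J := by
    rw [hpe]
    nlinarith
  have σ0 : 0 ≤ σ := by
    rw [hσe]
    positivity
  have P0 : p - 2 * u ≤ Pr := by
    rw [hpe, hu]
    linarith
  have P1' : (Pr : ℝ) ≤ J := by exact_mod_cast hPJ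
  rw [← hu, ← hx] at hφ
  rw [← hx] at hJ
  have G3 := abs_le.1 hg3
  rw [← hu, ← hb3] at G3
  have Gi : ∀ i < 3, (g i : ℝ) ≤ N.β i * J + u := fun i hi => by
    have := (abs_le.1 (hg i hi)).2
    rw [hu]
    linarith
  have G2 := (abs_le.1 (hg 2 (by norm_num))).1
  rw [← hu, ← hb2] at G2
  -- the floors
  have fl : ∀ r : ℝ, 0 ≤ r → (⌊r⌋₊ : ℝ) ≤ r := fun r hr => Nat.floor_le hr
  have fg : ∀ r : ℝ, r < (⌊r⌋₊ : ℝ) + 1 := fun r => Nat.lt_floor_add_one r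
  obtain ⟨W0, hW0⟩ : ∃ n : ℕ, n = ⌊N.w0 * J⌋₊ := ⟨_, rfl⟩
  obtain ⟨sg, hsg⟩ : ∃ n : ℕ, n = ⌊N.sN * J⌋₊ := ⟨_, rfl⟩
  obtain ⟨L, hL⟩ : ∃ n : ℕ, n = ⌊(N.fall - s) * J⌋₊ := ⟨_, rfl⟩
  obtain ⟨q, hq⟩ : ∃ n : ℕ, n = ⌊Cb * s * J⌋₊ := ⟨_, rfl⟩
  obtain ⟨ls, hls⟩ : ∃ n : ℕ, n = ⌊Cs * s * J⌋₊ := ⟨_, rfl⟩
  obtain ⟨h₀, hh₀⟩ : ∃ n : ℕ, n = ⌊s * J⌋₊ := ⟨_, rfl⟩
  obtain ⟨Xg, hXg⟩ : ∃ n : ℕ, n = ⌊(Cb + 17) * s * J⌋₊ := ⟨_, rfl⟩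
  obtain ⟨tt, htt⟩ : ∃ n : ℕ, n = ⌊2 * s * J⌋₊ := ⟨_, rfl⟩
  obtain ⟨dd, hdd⟩ : ∃ n : ℕ, n = ⌊(N.fall + C * (s + θ)) * J⌋₊ := ⟨_, rfl⟩
  obtain ⟨Ln, hLn⟩ : ∃ n : ℕ, n = ⌊(N.P1 - N.β 3 - s) * J⌋₊ := ⟨_, rfl⟩
  obtain ⟨Lg, hLg⟩ : ∃ n : ℕ, n = ⌊3 * s * J⌋₊ := ⟨_, rfl⟩
  obtain ⟨h, hh⟩ : ∃ n : ℕ, n = ⌊2 * C * s * J⌋₊ := ⟨_, rfl⟩
  obtain ⟨θn, hθn⟩ : ∃ n : ℕ, n = ⌊θ * J⌋₊ := ⟨_, rfl⟩
  obtain ⟨L', hL'⟩ : ∃ n : ℕ, n = ⌊(N.fall - C * s) * J⌋₊ := ⟨_, rfl⟩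
  obtain ⟨Ln', hLn'⟩ : ∃ n : ℕ, n = ⌊(N.P1 - N.β 3 - C * s) * J⌋₊ := ⟨_, rfl⟩
  obtain ⟨Pn, hPn⟩ : ∃ n : ℕ, n = ⌊(N.P1 + N.sN - C * (s + θ)) * J⌋₊ := ⟨_, rfl⟩
  obtain ⟨G, hG⟩ : ∃ n : ℕ, n = ⌊C * (s + θ) * J⌋₊ := ⟨_, rfl⟩
  rw [← hW0, ← hsg, ← hL, ← hq, ← hls, ← hh₀, ← hXg, ← htt, ← hdd, ← hLn, ← hLg, ← hh, ← hθn, ← hL',
    ← hLn', ← hPn, ← hG]
  have eL : (N.fall - s) * J = f - x := by
    rw [hfe, hx]
    ring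
  have eq' : Cb * s * J = Bx := by
    rw [hBx, hx]
    ring
  have els : Cs * s * J = Sx := by
    rw [hSx, hx]
    ring
  have eXg : (Cb + 17) * s * J = Bx + 17 * x := by
    rw [hBx, hx]
    ring
  have ett : 2 * s * J = 2 * x := by
    rw [hx]
    ring
  have edd : (N.fall + C * (s + θ)) * J = f + Cx + Ct := by
    rw [hfe, hCx, hCt, hx, ht]
    ring
  have eLn : (N.P1 - N.β 3 - s) * J = p - σ - b3 - x := by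
    rw [hP1e, hpe, hσe, hb3, hx]
    ring
  have eLg : 3 * s * J = 3 * x := by
    rw [hx]
    ring
  have eh : 2 * C * s * J = 2 * Cx := by
    rw [hCx, hx]
    ring
  have eL' : (N.fall - C * s) * J = f - Cx := by
    rw [hfe, hCx, hx]
    ring
  have eLn' : (N.P1 - N.β 3 - C * s) * J = p - σ - b3 - Cx := by
    rw [hP1e, hpe, hσe, hb3, hCx, hx]
    ring
  have ePn : (N.P1 + N.sN - C * (s + θ)) * J = p - Cx - Ct := by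
    rw [hP1e, hpe, hCx, hCt, hx, ht]
    ring
  rw [eL] at hL
  rw [eq'] at hq
  rw [els] at hls
  rw [← hx] at hh₀
  rw [eXg] at hXg
  rw [ett] at htt
  rw [edd] at hdd
  rw [eLn] at hLn
  rw [eLg] at hLg
  rw [eh] at hh
  rw [← ht] at hθn
  rw [eL'] at hL'
  rw [eLn'] at hLn'
  rw [ePn] at hPn
  rw [eCJ] at hG
  rw [← hσe] at hsg
  -- upper bounds
  have uW : (W0 : ℝ) ≤ N.w0 * J := by
    rw [hW0]
    exact fl _ w2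
  have usg : (sg : ℝ) ≤ σ := by
    rw [hsg]
    exact fl _ σ0
  have uL : (L : ℝ) ≤ f - x := by
    rw [hL]
    exact fl _ (by linarith)
  have uq : (q : ℝ) ≤ Bx := by
    rw [hq]
    exact fl _ (by linarith)
  have uls : (ls : ℝ) ≤ Sx := by
    rw [hls]
    exact fl _ (by linarith)
  have uh₀ : (h₀ : ℝ) ≤ x := by
    rw [hh₀]
    exact fl _ x0
  have uXg : (Xg : ℝ) ≤ Bx + 17 * x := by
    rw [hXg]
    exact fl _ (by linarith)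
  have utt : (tt : ℝ) ≤ 2 * x := by
    rw [htt]
    exact fl _ (by linarith)
  have uLg : (Lg : ℝ) ≤ 3 * x := by
    rw [hLg]
    exact fl _ (by linarith)
  have uθ : (θn : ℝ) ≤ t := by
    rw [hθn]
    exact fl _ t0
  have uL' : (L' : ℝ) ≤ f - Cx := by
    rw [hL']
    exact fl _ (by linarith)
  have uLn' : (Ln' : ℝ) ≤ p - σ - b3 - Cx := by
    rw [hLn']
    exact fl _ (by linarith)
  have uPn : (Pn : ℝ) ≤ p - Cx - Ct := by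
    rw [hPn]
    exact fl _ (by linarith)
  -- lower bounds
  have lL : f - x < L + 1 := by
    rw [hL]
    exact fg _
  have lXg : Bx + 17 * x < Xg + 1 := by
    rw [hXg]
    exact fg _
  have ltt : 2 * x < tt + 1 := by
    rw [htt]
    exact fg _
  have ldd : f + Cx + Ct < dd + 1 := by
    rw [hdd]
    exact fg _
  have lLn : p - σ - b3 - x < Ln + 1 := by
    rw [hLn]
    exact fg _
  have lh : 2 * Cx < h + 1 := by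
    rw [hh]
    exact fg _
  have lL' : f - Cx < L' + 1 := by
    rw [hL']
    exact fg _
  have lG : Cx + Ct < G + 1 := by
    rw [hG]
    exact fg _
  have cst : ∀ a b : ℕ, (a : ℝ) ≤ b → a ≤ b := fun a b h => by exact_mod_cast h
  refine ⟨hPW, hPJ, ?_, ?_, ?_, ?_, ?_, ?_, ?_, ?_, ?_, ?_, ?_, ?_, ?_, ?_⟩
  · -- wd
    intro i
    have key : wdS W0 g L i + (q + Lg + 5) ≤ Pr := by
      refine wdS_le (cst _ _ ?_) (fun i hi => cst _ _ ?_) (cst _ _ ?_) i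
      · push_cast
        linarith
      · have h1 := Gi i (by omega)
        have h2 := be i hi
        push_cast
        linarith
      · have h1 := Gi 2 (by norm_num)
        rw [← hb2] at h1
        push_cast
        linarith
    omega
  · refine cst _ _ ?_
    linarith [G3.2]
  · intro i hi
    refine cst _ _ ?_
    have h1 := Gi i (by omega)
    have h2 := be i hi
    push_cast
    linarith
  · refine cst _ _ ?_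
    push_cast
    linarith
  · refine cst _ _ ?_
    push_cast
    linarith
  · refine cst _ _ ?_
    push_cast
    linarith [G3.2]
  · refine cst _ _ ?_
    push_cast
    linarith
  · refine cst _ _ ?_
    push_cast
    linarith
  · refine cst _ _ ?_
    push_cast
    linarith
  · refine cst _ _ ?_
    push_cast
    linarith [G3.2]
  · refine cst _ _ ?_
    push_cast
    linarith [G3.2]
  · refine cst _ _ ?_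
    push_cast
    linarith
  · refine cst _ _ ?_
    push_cast
    linarith
  · refine cst _ _ ?_
    push_cast
    linarith

/-- The growth of the degree of the label is small against the branches. -/
theorem grow_of {Cb s : ℝ} {J Lg Xg : ℕ} {L φ : ℝ} (hCb : 1 ≤ Cb)
    (hJ : 20 ≤ s * J) (hφ : φ * J ≤ s * J / 100) (hL0 : 0 ≤ L) (hL : Real.log (1 + L) ≤ φ * J)
    (hLg : Lg = ⌊3 * s * J⌋₊) (hXg : Xg = ⌊(Cb + 17) * s * J⌋₊) :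
    12 * L * (1 + 4 * 2 ^ Lg) ^ 5 ≤ 2 ^ Xg := by
  have hJ0 : (0 : ℝ) ≤ J := Nat.cast_nonneg J
  have hl2 := Real.log_two_gt_d9
  obtain ⟨x, hx⟩ : ∃ x : ℝ, x = s * J := ⟨_, rfl⟩
  rw [← hx] at hJ hφ
  -- the size of `L`
  obtain ⟨n, hn⟩ : ∃ n : ℕ, n = ⌈x / 50⌉₊ := ⟨_, rfl⟩
  have hn1 : x / 50 ≤ n := by
    rw [hn]
    exact Nat.le_ceil _
  have hn2 : (n : ℝ) < x / 50 + 1 := by
    rw [hn]
    exact Nat.ceil_lt_add_one (by linarith)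
  have h1 : L ≤ 2 ^ n := by
    have h2 : Real.log (1 + L) ≤ n * Real.log 2 := by
      have : x / 50 * (1 / 2) ≤ n * Real.log 2 :=
        mul_le_mul hn1 (by linarith) (by norm_num) (Nat.cast_nonneg _)
      linarith
    have h3 := Real.exp_le_exp.2 h2
    rw [Real.exp_log (by linarith), ← Real.log_pow, Real.exp_log (by positivity)] at h3
    linarith
  -- the exponents
  have uLg : (Lg : ℝ) ≤ 3 * x := by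
    rw [hLg, show 3 * s * J = 3 * x by rw [hx]; ring]
    exact Nat.floor_le (by linarith)
  have lXg : (Cb + 17) * x < Xg + 1 := by
    rw [hXg, show (Cb + 17) * s * J = (Cb + 17) * x by rw [hx]; ring]
    exact Nat.lt_floor_add_one _
  have hex : 16 + n + 5 * Lg ≤ Xg := by
    have h2 : ((16 + n + 5 * Lg : ℕ) : ℝ) ≤ Xg := by
      push_cast
      nlinarith
    exact_mod_cast h2
  have h2 : (1 : ℝ) ≤ 2 ^ Lg := one_le_pow₀ (by norm_num)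
  have h3 : (1 + 4 * (2 : ℝ) ^ Lg) ^ 5 ≤ (5 * 2 ^ Lg) ^ 5 :=
    pow_le_pow_left₀ (by positivity) (by linarith) 5
  calc 12 * L * (1 + 4 * 2 ^ Lg) ^ 5 ≤ 12 * 2 ^ n * (5 * 2 ^ Lg) ^ 5 := by
        refine mul_le_mul ?_ h3 (by positivity) (by positivity)
        linarith
    _ = 37500 * 2 ^ (n + 5 * Lg) := by
        rw [mul_pow, ← pow_mul, mul_comm Lg 5, pow_add]
        ring
    _ ≤ 2 ^ 16 * 2 ^ (n + 5 * Lg) := by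
        refine mul_le_mul_of_nonneg_right (by norm_num) (by positivity)
    _ = 2 ^ (16 + n + 5 * Lg) := by
        rw [← pow_add, Nat.add_assoc]
    _ ≤ 2 ^ Xg := pow_le_pow_right₀ (by norm_num) hex

/-- **The arrays of a class**, from its parts. -/
theorem arrS_of {c₀ : ℝ} (hc₀ : 0 < c₀) : ∃ c₁ : ℝ, 0 < c₁ ∧ ∀ Cb : ℝ, 1 ≤ Cb → ∃ Ca : ℝ,
    ∀ {m : ℕ} {S : PCl m} {c : ℕ → Fin m} {N : MNum} {K D : ℕ} {cc C s θ : ℝ},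
    Bas S (fun _ F A => 0 < Pe F.p A) → Ca ≤ C → 0 < s → 0 < θ → C * (s + θ) ≤ N.fall →
    C * (s + θ) ≤ cc → 0 ≤ N.w0 → N.w0 ≤ N.w1 → N.w0 ≤ N.β 2 + s →
    (∀ i < 2, N.β i ≤ N.β 2 + s) → N.β 3 + cc ≤ N.P1 →
    (∀ i < 3, N.β i + N.fall + cc ≤ N.gN) → 0 ≤ N.sN → N.gN ≤ 1 →
    SfS S c N K D s → DrS S c N K D s → MkC S c N K D s c₁ → FbS S c N K D s Cb c₁ →
    ArrS S c N K D s s θ C c₁ c₀ := by
  classical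
  obtain ⟨c₁, hc₁⟩ : ∃ c₁ : ℝ, c₁ = min c₀ 1 / 12 := ⟨_, rfl⟩
  have hc10 : 0 < c₁ := by
    rw [hc₁]
    have := lt_min hc₀ one_pos
    linarith
  have hc11 : 12 * c₁ ≤ 1 := by
    rw [hc₁]
    have := min_le_right c₀ 1
    linarith
  have hc12 : 12 * c₁ ≤ c₀ := by
    rw [hc₁]
    have := min_le_left c₀ 1
    linarith
  obtain ⟨Cs, hCs, hnb⟩ := nbS hc10
  refine ⟨c₁, hc10, fun Cb hCb => ⟨4 * (Cb + Cs) + 60, ?_⟩⟩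
  intro m S c N K D cc C s θ hpos hCa hs hθ hf hcc hw0 hw01 hw0β hβ hP1 hgN hsN hgN1 hful hder
    ⟨φ₃, hφ₃, hmk⟩ ⟨K₂, n₀, φ₄, hφ₄, hbr⟩
  have hC0 : 0 ≤ C * (s + θ) := mul_nonneg (by linarith) (by linarith)
  have hroom : ∀ i < 3, N.β i + N.fall + Cb * s + (Cs + 5) * s ≤ N.gN := by
    intro i hi
    have h1 := hgN i hi
    have h2 : (4 * (Cb + Cs) + 60) * (s + θ) ≤ C * (s + θ) :=
      mul_le_mul_of_nonneg_right hCa (by linarith)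
    have h3 : 0 ≤ Cb * s := mul_nonneg (by linarith) hs.le
    have h4 : 0 ≤ Cs * s := mul_nonneg (by linarith) hs.le
    have h5 : 0 ≤ (4 * (Cb + Cs) + 60) * θ := mul_nonneg (by linarith) hθ.le
    nlinarith
  have hfall : 0 ≤ N.fall := hC0.trans hf
  have hCbs : 0 ≤ Cb * s := mul_nonneg (by linarith) hs.le
  -- the degree
  obtain ⟨K', hK'⟩ : ∃ K' : ℕ, K' = max 1 (max K K₂) := ⟨_, rfl⟩
  have hK1 : 1 ≤ K' := by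
    rw [hK']
    exact le_max_left _ _
  have hKK : K ≤ K' := by
    rw [hK']
    exact (le_max_left _ _).trans (le_max_right _ _)
  have hKK2 : K₂ ≤ K' := by
    rw [hK']
    exact (le_max_right _ _).trans (le_max_right _ _)
  obtain ⟨kC, hasm⟩ := asm_mem K' hK1
  obtain ⟨φ₁, hφ₁, hnF⟩ := hnb (c := c) (D := D) (K := K) (N := N) hpos hs hCbs hw0 hw01 hw0β hfall
    hroom hful hder K' ((Fin D × Fin n₀) × Ix)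
  obtain ⟨φ₂, hφ₂, hnO⟩ := hnb (c := c) (D := D) (K := K) (N := N) hpos hs hCbs hw0 hw01 hw0β hfall
    hroom hful hder K' Ix
  obtain ⟨φ₅, hφ₅, hdr⟩ := hder
  -- the slack
  obtain ⟨φ, hφ⟩ : ∃ φ : ℝ, φ = min (min (min φ₁ φ₂) (min φ₃ φ₄)) (min φ₅ (s / 100)) := ⟨_, rfl⟩
  have hφ0 : 0 < φ := by
    rw [hφ]
    exact lt_min (lt_min (lt_min hφ₁ hφ₂) (lt_min hφ₃ hφ₄)) (lt_min hφ₅ (by linarith))
  have l1 : φ ≤ φ₁ := by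
    rw [hφ]
    exact (min_le_left _ _).trans ((min_le_left _ _).trans (min_le_left _ _))
  have l2 : φ ≤ φ₂ := by
    rw [hφ]
    exact (min_le_left _ _).trans ((min_le_left _ _).trans (min_le_right _ _))
  have l3 : φ ≤ φ₃ := by
    rw [hφ]
    exact (min_le_left _ _).trans ((min_le_right _ _).trans (min_le_left _ _))
  have l4 : φ ≤ φ₄ := by
    rw [hφ]
    exact (min_le_left _ _).trans ((min_le_right _ _).trans (min_le_right _ _))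
  have l5 : φ ≤ φ₅ := by
    rw [hφ]
    exact (min_le_right _ _).trans (min_le_left _ _)
  have l6 : φ ≤ s / 100 := by
    rw [hφ]
    exact (min_le_right _ _).trans (min_le_right _ _)
  obtain ⟨J₁, hJ₁⟩ := exists_nat_ge (2 * ((kC : ℝ) + 20) / s)
  refine ⟨K', D * n₀ * 81, hK1, φ, hφ0,
    ((hpos.and (hdr.and (hmk.and (hbr.and (hnF.and hnO))))).mono J₁ ?_)⟩
  rintro J hJ F A ⟨hA, hdr, hmk, hbr, hnF, hnO⟩ d μ lv ln hμ hv hn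
  have hJ0 : (0 : ℝ) ≤ J := Nat.cast_nonneg J
  have hJ2 : 2 * ((kC : ℝ) + 20) ≤ s * J := by
    have h1 : 2 * ((kC : ℝ) + 20) / s ≤ J := hJ₁.trans (by exact_mod_cast hJ)
    rw [div_le_iff₀ hs] at h1
    linarith
  have hkC : (0 : ℝ) ≤ kC := Nat.cast_nonneg kC
  have hφJ : φ * J ≤ s * J / 100 := by
    have := mul_le_mul_of_nonneg_right l6 hJ0
    linarith
  have hPr : (N.gN - 2 * φ) * J ≤ d.Pr := by
    have h1 := d.Pr_ge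
    have h2 := (abs_le.1 d.numN).1
    linarith
  have hnum := numA_of (N := N) (C := C) (kC := kC) (Pr := d.Pr) (g := d.gU) hCb hCs hCa hs hθ hJ2
    hφJ hf hcc hw0 hw0β hβ hP1 hgN hsN hgN1 d.Pr_W (d.Pr_g.trans d.topN) hPr
    (fun i hi => d.numU i hi) d.numUN
  -- the law
  have hq2 : IsLaw (q2 F A ⌊N.w0 * J⌋₊) := Pool.KM7.P2_isLaw (isLaw_cond F.isLaw hA) _
  have hsh : 1 / 2 ≤ Pe (q2 F A ⌊N.w0 * J⌋₊)
      (d.lb.Shv c ⌊N.w0 * J⌋₊ ⌊s * J⌋₊ ⌊(N.fall - s) * J⌋₊ lv) := by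
    have h1 := Pool.PLN.pe_not hq2 (d.lb.Shv c ⌊N.w0 * J⌋₊ ⌊s * J⌋₊ ⌊(N.fall - s) * J⌋₊ lv)
    linarith
  obtain ⟨hQ, hQ2, hQs, hQe⟩ := q_cond hq2 hsh
  obtain ⟨aF, haF, hbrQ⟩ := hbr (d.mono l4) lv _ hQ hQ2 hQs
  have hdF : ∀ (x : (d.lb.V₁ × (d.lb.V₀ × ℕ)) × (Fin 4 → ℤ)) (j : (Fin D × Fin n₀) × Ix),
      (fmF d.lb ⌊N.w1 * J⌋₊ ⌊N.w0 * J⌋₊ d.Pr ⌊N.sN * J⌋₊ ⌊(N.fall - s) * J⌋₊ ⌊Cb * s * J⌋₊
        ⌊(N.fall + C * (s + θ)) * J⌋₊ lv ln aF x j).totalDegree ≤ K' := fun x j =>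
    deg_fmA d.aff hK1 _ _ _ _ _ _ _ _ _
      ((totalDegree_mul _ _).trans (by
        rw [totalDegree_C, zero_add]
        exact (haF _ _ _ _).trans hKK2)) _ _ _
  have hdO : ∀ (x : (d.lb.V₁ × (d.lb.V₀ × ℕ)) × (Fin 4 → ℤ)) (j : Ix),
      (fmO d.lb ⌊N.w1 * J⌋₊ ⌊N.w0 * J⌋₊ d.Pr ⌊N.sN * J⌋₊ ⌊(N.fall - s) * J⌋₊ ⌊Cb * s * J⌋₊
        ⌊(N.fall + C * (s + θ)) * J⌋₊ lv ln d.P x j).totalDegree ≤ K' := fun x j =>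
    deg_fmA d.aff hK1 _ _ _ _ _ _ _ _ _
      (deg_plO (fun i => deg_sG d.aff _ _ _ _ _) ((d.lab3.deg _ _).trans hKK)) _ _ _
  have hF := hnF (d.mono l1) lv _ hQ hQ2 hQs (lbF d.lb ⌊N.w0 * J⌋₊) (Or.inl rfl) _ hdF
  have hO := hnO (d.mono l2) lv _ hQ hQ2 hQs (lbO d.lb ⌊N.w0 * J⌋₊) (Or.inr rfl) _ hdO
  have hdv : ∀ e, 0 < q2 F A ⌊N.w0 * J⌋₊ e →
      d.lb.Shv c ⌊N.w0 * J⌋₊ ⌊s * J⌋₊ ⌊(N.fall - s) * J⌋₊ lv e → ∀ R,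
      (R = lbF d.lb ⌊N.w0 * J⌋₊ ∨ R = lbO d.lb ⌊N.w0 * J⌋₊) → ∀ i j (x : Fin 4 → ℝ),
      |eval x (pderiv j (sG d.lb ⌊N.w1 * J⌋₊ ⌊N.w0 * J⌋₊ lv (R e) i))| ≤ 2 ^ ⌊3 * s * J⌋₊ := by
    intro e he hes R hR i j x
    obtain ⟨h2, h3, -⟩ := (P2_pos (isLaw_cond F.isLaw hA) e).1 he
    exact hdr (d.mono l5) lv e (cond_supp h2) (cond_supp h3) hes R hR i j x
  obtain ⟨br, a, b₁, χ, M, E₁, hArr, hM, hE⟩ := hasm d lv ln ⌊(N.fall - s) * J⌋₊ ⌊Cb * s * J⌋₊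
    ⌊Cs * s * J⌋₊ ⌊s * J⌋₊ ⌊(Cb + 17) * s * J⌋₊ ⌊2 * s * J⌋₊ ⌊(N.fall + C * (s + θ)) * J⌋₊
    ⌊(N.P1 - N.β 3 - s) * J⌋₊ ⌊3 * s * J⌋₊ ⌊Cb * s * J⌋₊ ⌊2 * C * s * J⌋₊ ⌊θ * J⌋₊
    ⌊(N.fall - C * s) * J⌋₊ ⌊(N.P1 - N.β 3 - C * s) * J⌋₊ ⌊(N.P1 + N.sN - C * (s + θ)) * J⌋₊
    ⌊C * (s + θ) * J⌋₊ ⌊s * J⌋₊ μ c₁ c₁ aF hnum hA hKK (fun γ b k i => (haF γ b k i).trans hKK2)
    (grow_of hCb (by linarith) hφJ d.L0 d.L1 rfl rfl) (by linarith) (fun ω hω => (hμ ω hω).1) hv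
    hn hdv (hmk (d.mono l3)) ((hQe _).trans hbrQ) ((hQe _).trans hF) ((hQe _).trans hO)
  exact ⟨br, a, b₁, χ, M, E₁, hArr, hM, hE.trans (by linarith)⟩

end Pool.TUB
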