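import Pool.Agent.H22.M.Stm
import Pool.Agent.H24.PLN.Aff1

/-!
# Plan M: the structure of a member from its parts

`PLab`: the labels of a member. The parts: `Ok` (the labels), `Shv` (the first point is on the two
sheets of `v`), `Shn` (the same for the height), `Fls` (the slopes are separated), `Tsp` (the times
are separated), `Arr` (the arrays). `plnM_of`: if the exceptional pairs of each part have small mass,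
then there is one event `E` with all the fields. `plnMS_of`: the same in a class.
-/

set_option autoImplicit false

namespace Pool.PM

open Finset Real MvPolynomial
open Pool.Agent.H49.Ent Pool.Agent.H32.Dense Pool.STK Pool.KA Pool.KSAT Pool.K2S Pool.PB
  Pool.STAT Pool.GEN Pool.M3F Pool.KM7 Pool.S6C Pool.JPN
open Pool.JMN (shf)
open Pool.SPN (sg1)

variable {m J : ℕ}

/-- The labels of a member: the chart at the window `w₀`, the label at the window `w₁`. -/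
structure PLab (F : Fam m J) : Type 1 where
  g : ℕ → ℕ
  V₀ : Type
  V₁ : Type
  P : V₀ → ℕ → PN
  z₀ : PtT F → V₀
  z₀' : LnT F → V₀
  z₁ : PtT F → V₁
  z₁' : LnT F → V₁

namespace PLab

variable {F : Fam m J}

/-- The labels are closed, the chart is triangular and affine, the points are in the boxes. -/
structure Ok (l : PLab F) (A : F.Ω → Prop) (c : ℕ → Fin m) (w₀ w₁ : ℕ) : Prop where
  tri : ∀ v, TriN (l.P v)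
  aff : ∀ v i, (l.P v i).totalDegree ≤ 1
  cls₀ : ∀ ω, A ω → l.z₀ (ptr F J ω) = l.z₀' (slam F w₀ ω)
  cls₁ : ∀ ω, A ω → l.z₁ (ptr F J ω) = l.z₁' (slam F w₁ ω)
  pos : ∀ ω, A ω → ∀ i < 4, |ntc F c l.P l.z₀ ω i| ≤ 1 / 2 ^ l.g i

/-- The sheet of the leaf of `ω'` in the chart of `ω`. -/
noncomputable def sh (l : PLab F) (lf : l.V₁ → l.V₀ → Fin 4 → ℝ) (ω ω' : F.Ω) : Fin 4 → ℝ :=
  lf (l.z₁ (ptr F J ω')) (l.z₀ (ptr F J ω))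

/-- The deviation of the natural coordinate `j` of `ω` from the sheet of the leaf of `ω'`. -/
noncomputable def dev (l : PLab F) (c : ℕ → Fin m) (w₀ j : ℕ) (lf : l.V₁ → l.V₀ → Fin 4 → ℝ)
    (ω ω' : F.Ω) : ℝ :=
  |nx F c l.P l.z₀ l.g ω j - lfv F c l.P l.z₀ l.g w₀ (l.sh lf ω ω') ω|

/-- **The sheets of `v`.** -/
def Shv (l : PLab F) (c : ℕ → Fin m) (w₀ h L : ℕ) (lf : l.V₁ → l.V₀ → Fin 4 → ℝ)
    (e : F.Ω × F.Ω) : Prop :=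
  l.dev c w₀ 2 lf e.1 e.1 ≤ 1 / 2 ^ L ∧ l.dev c w₀ 2 lf e.1 e.2 ≤ 1 / 2 ^ L ∧
    ∀ i, |l.sh lf e.1 e.1 i| ≤ 2 ^ h ∧ |l.sh lf e.1 e.2 i| ≤ 2 ^ h

/-- **The sheets of the height**, `Me`: the size of the gradients. -/
def Shn (l : PLab F) (c : ℕ → Fin m) (w₀ h L Ln : ℕ) (lf : l.V₁ → l.V₀ → Fin 4 → ℝ) (Me : ℝ)
    (e : F.Ω × F.Ω) : Prop :=
  l.dev c w₀ 3 lf e.1 e.1 ≤ 1 / 2 ^ Ln + Me / 2 ^ L ∧
    l.dev c w₀ 3 lf e.1 e.2 ≤ 1 / 2 ^ Ln + Me / 2 ^ L ∧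
    ∀ i, |l.sh lf e.1 e.1 i| ≤ 2 ^ h ∧ |l.sh lf e.1 e.2 i| ≤ 2 ^ h

/-- **The slopes** in the direction `z` of the two sheets of `v` are separated. -/
def Fls (l : PLab F) (h : ℕ) (lf : l.V₁ → l.V₀ → Fin 4 → ℝ) (e : F.Ω × F.Ω) : Prop :=
  1 / 2 ^ h ≤ |l.sh lf e.1 e.1 3 - l.sh lf e.1 e.2 3|

/-- **The arrays**, on the event `E₁`: all the fields of `PlnM` about arrays. -/
structure Arr {K : ℕ} (hK : 1 ≤ K) (l : PLab F) (A : F.Ω → Prop) (c : ℕ → Fin m)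
    (w₀ w₁ h θ d L Ln sg Pn G : ℕ) (lv ln : l.V₁ → l.V₀ → Fin 4 → ℝ) {n₀ : ℕ}
    (br : F.Ω × F.Ω → Fin n₀) (a : F.Ω × F.Ω → (Fin 3 → Fin (K + 1)) → ℝ)
    (b : F.Ω → (Fin 3 → Fin (K + 1)) → ℝ) (χ : l.V₀ → Fin 3 → ℝ) (M : F.Ω × F.Ω → ℝ)
    (E₁ : F.Ω × F.Ω → Prop) : Prop where
  da : ∀ e e', E₁ e → E₁ e' → Thk h L Ln (M e) → Thk h L Ln (M e') →
    AA F l.z₁' w₁ e = AA F l.z₁' w₁ e' →
    WW 3 F c l.P l.z₀ l.z₀' l.g d w₀ br e = WW 3 F c l.P l.z₀ l.z₀' l.g d w₀ br e' → a e = a e'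
  db : ∀ ω ω', A ω → A ω' → l.z₁' (slam F w₁ ω) = l.z₁' (slam F w₁ ω') → F.W ω = F.W ω' →
    l.z₀' (slam F w₀ ω) = l.z₀' (slam F w₀ ω') →
    ce 3 F c l.P l.z₀ l.g d ω = ce 3 F c l.P l.z₀ l.g d ω' → b ω = b ω'
  na : ∀ e, E₁ e → Thk h L Ln (M e) →
    |F.x e.1 (c 3) / 2 ^ sg - Pool.JMN.ev (a e) (yc 3 F c l.P l.z₀ l.g d e.1)| ≤ 1 / 2 ^ Pn
  nb : ∀ e, E₁ e → Thk h L Ln (M e) →
    |F.x e.1 (c 3) / 2 ^ sg - Pool.JMN.ev (b e.1) (yc 3 F c l.P l.z₀ l.g d e.1)| ≤ 1 / 2 ^ Pn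
  ga : ∀ e, E₁ e → Thk h L Ln (M e) → ∀ z z' : Fin 3 → ℝ, (∀ i, |z i| ≤ 2) → (∀ i, |z' i| ≤ 2) →
    |Pool.JMN.ev (a e) z - Pool.JMN.ev (a e) z'| ≤
      2 ^ G * ∑ i : Fin 3, |z i - z' i| / 2 ^ (l.g i + d)
  gb : ∀ e, E₁ e → Thk h L Ln (M e) → ∀ z z' : Fin 3 → ℝ, (∀ i, |z i| ≤ 2) → (∀ i, |z' i| ≤ 2) →
    |Pool.JMN.ev (b e.1) z - Pool.JMN.ev (b e.1) z'| ≤
      2 ^ G * ∑ i : Fin 3, |z i - z' i| / 2 ^ (l.g i + d)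
  one : ∀ e, E₁ e → 1 ≤ M e
  mle : ∀ e, E₁ e → M e ≤ 2 ^ (L + h)
  up : ∀ e, E₁ e → Thk h L Ln (M e) → ∀ i,
    |gr hK (yc 3 F c l.P l.z₀ l.g d e.1) (a e) (χ (l.z₀ (ptr F J e.1))) i| ≤
      M e * (1 / 2 ^ (sg + l.g 3 + d)) ∧
    |gr hK (yc 3 F c l.P l.z₀ l.g d e.1) (b e.1) (χ (l.z₀ (ptr F J e.1))) i| ≤
      M e * (1 / 2 ^ (sg + l.g 3 + d))
  lo : ∀ e, E₁ e → Thk h L Ln (M e) → M e = 1 ∨ ∃ i,
    M e * (1 / 2 ^ (sg + l.g 3 + d)) ≤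
        |gr hK (yc 3 F c l.P l.z₀ l.g d e.1) (a e) (χ (l.z₀ (ptr F J e.1))) i| ∨
      M e * (1 / 2 ^ (sg + l.g 3 + d)) ≤
        |gr hK (yc 3 F c l.P l.z₀ l.g d e.1) (b e.1) (χ (l.z₀ (ptr F J e.1))) i|
  hi : ∀ e, E₁ e → Thk h L Ln (M e) → ∀ al, 2 ≤ Pool.JMN.tdg al →
    |shf (yc 3 F c l.P l.z₀ l.g d e.1) (a e) al| ≤ M e * (1 / 2 ^ (sg + l.g 3 + d)) / 2 ^ θ ∧
    |shf (yc 3 F c l.P l.z₀ l.g d e.1) (b e.1) al| ≤ M e * (1 / 2 ^ (sg + l.g 3 + d)) / 2 ^ θ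
  lka : ∀ e, E₁ e → Thk h L Ln (M e) → ∀ i : Fin 2,
    |1 / 2 ^ (sg + l.g 3 + d) * l.sh ln e.1 e.2 (Fin.natAdd 2 i) -
      (gr hK (yc 3 F c l.P l.z₀ l.g d e.1) (a e) (χ (l.z₀ (ptr F J e.1))) (Fin.castSucc i) +
        gr hK (yc 3 F c l.P l.z₀ l.g d e.1) (a e) (χ (l.z₀ (ptr F J e.1))) (Fin.last 2) *
          l.sh lv e.1 e.2 (Fin.natAdd 2 i))| ≤
      2 ^ h * (1 / 2 ^ (sg + l.g 3 + d)) * (1 / 2 ^ Ln + M e / 2 ^ L)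
  lkb : ∀ e, E₁ e → Thk h L Ln (M e) → ∀ i : Fin 2,
    |1 / 2 ^ (sg + l.g 3 + d) * l.sh ln e.1 e.1 (Fin.natAdd 2 i) -
      (gr hK (yc 3 F c l.P l.z₀ l.g d e.1) (b e.1) (χ (l.z₀ (ptr F J e.1))) (Fin.castSucc i) +
        gr hK (yc 3 F c l.P l.z₀ l.g d e.1) (b e.1) (χ (l.z₀ (ptr F J e.1))) (Fin.last 2) *
          l.sh lv e.1 e.1 (Fin.natAdd 2 i))| ≤
      2 ^ h * (1 / 2 ^ (sg + l.g 3 + d)) * (1 / 2 ^ Ln + M e / 2 ^ L)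

end PLab

/-- Five exceptional events. -/
theorem pe_five {Ω : Type} [Fintype Ω] {p : Ω → ℝ} (hp : IsLaw p) {E₀ E₁ E₂ E₃ E₄ : Ω → Prop}
    {x : ℝ} (h₀ : Pe p (fun ω => ¬ E₀ ω) ≤ x / 5) (h₁ : Pe p (fun ω => ¬ E₁ ω) ≤ x / 5)
    (h₂ : Pe p (fun ω => ¬ E₂ ω) ≤ x / 5) (h₃ : Pe p (fun ω => ¬ E₃ ω) ≤ x / 5)
    (h₄ : Pe p (fun ω => ¬ E₄ ω) ≤ x / 5) :
    1 - x ≤ Pe p (fun ω => E₀ ω ∧ E₁ ω ∧ E₂ ω ∧ E₃ ω ∧ E₄ ω) := by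
  classical
  have hu : Pe p (fun _ => True) ≤ Pe p (fun ω => E₀ ω ∧ E₁ ω ∧ E₂ ω ∧ E₃ ω ∧ E₄ ω) +
      (Pe p (fun ω => ¬ E₀ ω) + Pe p (fun ω => ¬ E₁ ω) + Pe p (fun ω => ¬ E₂ ω) +
        Pe p (fun ω => ¬ E₃ ω) + Pe p (fun ω => ¬ E₄ ω)) := by
    rw [Pe_eq, Pe_eq, Pe_eq, Pe_eq, Pe_eq, Pe_eq, Pe_eq, ← Finset.sum_add_distrib,
      ← Finset.sum_add_distrib, ← Finset.sum_add_distrib, ← Finset.sum_add_distrib,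
      ← Finset.sum_add_distrib]
    refine Finset.sum_le_sum fun ω _ => ?_
    have h0 := hp.nonneg ω
    by_cases a0 : E₀ ω <;> by_cases a1 : E₁ ω <;> by_cases a2 : E₂ ω <;> by_cases a3 : E₃ ω <;>
      by_cases a4 : E₄ ω <;> simp [a0, a1, a2, a3, a4] <;> linarith
  rw [Pe_univ hp] at hu
  linarith

/-- **One event with all the fields.** -/
theorem plnM_of {K : ℕ} {hK : 1 ≤ K} {F : Fam m J} {A : F.Ω → Prop} {c : ℕ → Fin m}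
    {w₀ w₁ h θ d L Ln sg Pn G : ℕ} {η : ℝ} {l : PLab F} {n₀ : ℕ}
    {lv ln : l.V₁ → l.V₀ → Fin 4 → ℝ} {br : F.Ω × F.Ω → Fin n₀}
    {a : F.Ω × F.Ω → (Fin 3 → Fin (K + 1)) → ℝ} {b : F.Ω → (Fin 3 → Fin (K + 1)) → ℝ}
    {χ : l.V₀ → Fin 3 → ℝ} {M : F.Ω × F.Ω → ℝ} {E₁ : F.Ω × F.Ω → Prop}
    (hA : 0 < Pe F.p A) (ok : l.Ok A c w₀ w₁)
    (ar : l.Arr hK A c w₀ w₁ h θ d L Ln sg Pn G lv ln br a b χ M E₁)
    (hv : Pe (P2 (Pool.Agent.H49.Ent.cond F.p A True) (slam F w₀))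
      (fun e => ¬ l.Shv c w₀ h L lv e) ≤ η / 5)
    (hn : Pe (P2 (Pool.Agent.H49.Ent.cond F.p A True) (slam F w₀))
      (fun e => ¬ l.Shn c w₀ h L Ln ln (M e) e) ≤ η / 5)
    (hf : Pe (P2 (Pool.Agent.H49.Ent.cond F.p A True) (slam F w₀))
      (fun e => ¬ l.Fls h lv e) ≤ η / 5)
    (ht : Pe (P2 (Pool.Agent.H49.Ent.cond F.p A True) (slam F w₀))
      (fun e => ¬ 1 / 2 ^ h ≤ |nt F w₀ e.1 - nt F w₀ e.2|) ≤ η / 5)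
    (h₁ : Pe (P2 (Pool.Agent.H49.Ent.cond F.p A True) (slam F w₀)) (fun e => ¬ E₁ e) ≤ η / 5) :
    PlnM hK F A c w₀ w₁ h θ d L Ln sg Pn G η l.g l.P l.z₀ l.z₀' l.z₁ l.z₁'
      (fun v u => ![lv v u, ln v u]) br a b χ M
      (fun e => l.Shv c w₀ h L lv e ∧ l.Shn c w₀ h L Ln ln (M e) e ∧ l.Fls h lv e ∧
        1 / 2 ^ h ≤ |nt F w₀ e.1 - nt F w₀ e.2| ∧ E₁ e) where
  tri := ok.tri
  aff := ok.aff
  cls₀ := ok.cls₀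
  cls₁ := ok.cls₁
  pos := ok.pos
  mass := pe_five (P2_isLaw (isLaw_cond F.isLaw hA) _) hv hn hf ht h₁
  own₀ := fun e he => he.1.1
  own₁ := fun e he => he.2.1.1
  onl₀ := fun e he => he.1.2.1
  onl₁ := fun e he => he.2.1.2.1
  siz := by
    intro e he j i
    fin_cases j
    · exact he.1.2.2 i
    · exact he.2.1.2.2 i
  tsp := fun e he => he.2.2.2.1
  fal := fun e he => he.2.2.1
  da := fun e e' he he' => ar.da e e' he.2.2.2.2 he'.2.2.2.2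
  db := ar.db
  na := fun e he => ar.na e he.2.2.2.2
  nb := fun e he => ar.nb e he.2.2.2.2
  ga := fun e he => ar.ga e he.2.2.2.2
  gb := fun e he => ar.gb e he.2.2.2.2
  one := fun e he => ar.one e he.2.2.2.2
  mle := fun e he => ar.mle e he.2.2.2.2
  up := fun e he => ar.up e he.2.2.2.2
  lo := fun e he => ar.lo e he.2.2.2.2
  hi := fun e he => ar.hi e he.2.2.2.2
  lka := fun e he => ar.lka e he.2.2.2.2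
  lkb := fun e he => ar.lkb e he.2.2.2.2

end Pool.PM
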