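import Pool.Agent.H3.PM.Dat

/-!
# Plan M: `PlnMS` from its parts

`mo_pig`: on a part of the event the slopes of the height have the same size up to the loss.
`plnMS_of`: `PlnMS` from `LabM`, `MkS`, `ShvS`, `ShnS`, `FlsS`, `ArrS` and the separation of the
times.
-/

set_option autoImplicit false

namespace Pool.PM

open Finset Real MvPolynomial
open Pool.Agent.H49.Ent Pool.Agent.H32.Dense Pool.STK Pool.KA Pool.KSAT Pool.K2S Pool.PB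
  Pool.STAT Pool.GEN Pool.M3F Pool.KM7 Pool.S6C Pool.JPN
open Pool.GRW (TmWn)

variable {m J : ℕ}

/-- **Few levels.** A function with values in `[1, R]` is constant up to the factor `x` on a part of
the event. -/
theorem lev_pig {Ω : Type} [Fintype Ω] {p : Ω → ℝ} (hp : ∀ ω, 0 ≤ p ω) {A : Ω → Prop} {f : Ω → ℝ}
    {x : ℝ} (hx : 1 < x) {n : ℕ} (h1 : ∀ ω, A ω → 1 ≤ f ω) (h2 : ∀ ω, A ω → f ω ≤ x ^ n) :
    ∃ j ≤ n, Pe p A ≤ (n + 1) * Pe p (fun ω => A ω ∧ x ^ j ≤ f ω ∧ f ω ≤ x ^ j * x) := by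
  classical
  have hlev : ∀ ω, A ω → ∃ j, j ≤ n ∧ x ^ j ≤ f ω ∧ f ω ≤ x ^ j * x := by
    intro ω hω
    obtain ⟨k, hk1, hk2⟩ := exists_nat_pow_near (h1 ω hω) hx
    rcases Nat.lt_or_ge n k with h | h
    · exfalso
      have h3 : x ^ n < x ^ k := pow_lt_pow_right₀ hx h
      linarith [h2 ω hω]
    · exact ⟨k, h, hk1, by rw [← pow_succ]; exact hk2.le⟩
  have hsum : Pe p A ≤ ∑ j ∈ range (n + 1),
      Pe p (fun ω => A ω ∧ x ^ j ≤ f ω ∧ f ω ≤ x ^ j * x) := by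
    rw [Pe_eq]
    simp_rw [Pe_eq]
    rw [Finset.sum_comm]
    refine Finset.sum_le_sum fun ω _ => ?_
    by_cases hA : A ω
    · obtain ⟨j, hj, h3, h4⟩ := hlev ω hA
      rw [if_pos hA]
      refine le_trans ?_ (Finset.single_le_sum (fun i _ => ?_)
        (Finset.mem_range.2 (show j < n + 1 by omega)))
      · rw [if_pos ⟨hA, h3, h4⟩]
      · split_ifs
        · exact hp ω
        · exact le_rfl
    · rw [if_neg hA]
      refine Finset.sum_nonneg fun i _ => ?_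
      split_ifs
      · exact hp ω
      · exact le_rfl
  by_contra hcon
  push Not at hcon
  have h6 : ∑ j ∈ range (n + 1), Pe p (fun ω => A ω ∧ x ^ j ≤ f ω ∧ f ω ≤ x ^ j * x) <
      ∑ _j ∈ range (n + 1), Pe p A / (n + 1) := by
    refine Finset.sum_lt_sum_of_nonempty ⟨0, Finset.mem_range.2 (by omega)⟩ fun j hj => ?_
    have h7 := hcon j (by have := Finset.mem_range.1 hj; omega)
    rw [lt_div_iff₀ (by positivity), mul_comm]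
    exact h7
  rw [Finset.sum_const, Finset.card_range, nsmul_eq_mul, Nat.cast_add_one,
    mul_div_cancel₀ _ (by positivity)] at h6
  linarith

/-- **A further statement** on the subevents. -/
theorem bas_snd {S : PCl m} {Φ Θ : Stat m} {K₁ : ℝ} (hK : 0 < K₁)
    (h : Bas S (fun J F A => ∃ B : F.Ω → Prop, Sub B A ∧ Pe F.p A ≤ K₁ * Pe F.p B ∧ Φ J F B))
    (h' : Bas S Θ) :
    Bas S (fun J F A => ∃ B : F.Ω → Prop, Sub B A ∧ Pe F.p A ≤ K₁ * Pe F.p B ∧ Φ J F B ∧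
      Θ J F B) := by
  have h'' : Bas S (fun J F A => ∀ B : F.Ω → Prop, Sub B A → 1 / K₁ * Pe F.p A ≤ Pe F.p B →
      Θ J F B) := by
    obtain ⟨τ, hτ, J₁, h'⟩ := h'
    obtain ⟨J₂, hJ₂⟩ := exists_nat_ge (-Real.log (1 / K₁) / (τ / 2))
    refine ⟨τ / 2, by positivity, max J₁ J₂, fun J hJ F A hA B hB hP => ?_⟩
    refine h' J ((le_max_left _ _).trans hJ) F B ?_
    have h1 := S.res (τ := τ / 2) (τ' := τ / 2) (by positivity) hA hB (by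
      refine le_trans (mul_le_mul_of_nonneg_right ?_ (Pe_nonneg F.isLaw A)) hP
      have hJ' : (J₂ : ℝ) ≤ J := by exact_mod_cast (le_max_right _ _).trans hJ
      have h2 : -Real.log (1 / K₁) / (τ / 2) ≤ J := hJ₂.trans hJ'
      rw [div_le_iff₀ (by positivity)] at h2
      have h3 : -(τ / 2 * (J : ℝ)) ≤ Real.log (1 / K₁) := by linarith
      exact (Real.exp_le_exp.2 h3).trans (Real.exp_log (by positivity)).le)
    rwa [add_halves] at h1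
  refine Bas.mono 0 (h.and h'') ?_
  rintro J - F A ⟨⟨B, h1, h2, h3⟩, h4⟩
  refine ⟨B, h1, h2, h3, h4 B h1 ?_⟩
  rw [one_div, inv_mul_le_iff₀ hK]
  exact h2

/-- **The labels, with one size of the slopes of the height.** -/
theorem mo_pig {S : PCl m} {c : ℕ → Fin m} {N : MNum} {K D : ℕ} {R : ℝ} (hR : 0 ≤ R)
    (hl : LabM S c N K D) (hk : MkS S c N K D R) : ∀ φ : ℝ, 0 < φ → ∃ κ : ℝ, 0 < κ ∧
    Bas S (fun J F A => ∃ A' : F.Ω → Prop, Sub A' A ∧ κ * Pe F.p A ≤ Pe F.p A' ∧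
      ∃ (d : MDat N φ K D F c A') (μ : ℝ), ∀ ω, A' ω → μ ≤ d.mo ω ∧ d.mo ω ≤ μ * Real.exp (φ * J)) := by
  intro φ hφ
  obtain ⟨φ₁, hφ₁, hk'⟩ := hk
  obtain ⟨κ, hκ, hl'⟩ := hl (min φ φ₁) (lt_min hφ hφ₁)
  obtain ⟨n, hn⟩ : ∃ n : ℕ, R / φ ≤ n := exists_nat_ge _
  refine ⟨κ / (2 * (n + 1)), by positivity, ?_⟩
  have h0 : Bas S (fun J F A => ∃ B : F.Ω → Prop, Sub B A ∧ Pe F.p A ≤ (1 / κ) * Pe F.p B ∧
      Nonempty (MDat N (min φ φ₁) K D F c B)) := by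
    refine Bas.mono 0 hl' ?_
    rintro J - F A ⟨B, h1, h2, h3⟩
    refine ⟨B, h1, ?_, h3⟩
    rw [one_div, ← div_eq_inv_mul, le_div_iff₀ hκ, mul_comm]
    exact h2
  refine Bas.mono 1 (bas_snd (by positivity) h0 hk') ?_
  rintro J hJ F A ⟨B, hB, hBm, ⟨d⟩, hd⟩
  have hJ0 : (0 : ℝ) < J := by exact_mod_cast hJ
  have h1 := hd (d.mono (min_le_right _ _))
  obtain ⟨B₁, hB₁⟩ : ∃ B₁ : F.Ω → Prop, B₁ = fun ω => B ω ∧ d.mo ω ≤ 2 ^ ⌊R * J⌋₊ := ⟨_, rfl⟩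
  have hB₁m : Pe F.p B / 2 ≤ Pe F.p B₁ := by
    rw [hB₁]
    exact h1
  have hx : (1 : ℝ) < Real.exp (φ * J) := by
    rw [Real.one_lt_exp_iff]
    positivity
  obtain ⟨j, hj, hj2⟩ := lev_pig F.isLaw.nonneg (A := B₁) (f := d.mo) hx (n := n)
    (fun ω _ => le_max_left _ _) (fun ω hω => by
      rw [hB₁] at hω
      refine hω.2.trans ?_
      rw [← Real.exp_nat_mul]
      have h2 : (2 : ℝ) ^ ⌊R * J⌋₊ ≤ Real.exp (⌊R * J⌋₊ : ℝ) := by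
        rw [← Real.exp_one_pow]
        exact pow_le_pow_left₀ (by norm_num) (by linarith [Real.exp_one_gt_d9]) _
      refine h2.trans (Real.exp_le_exp.2 ?_)
      have h3 : (⌊R * J⌋₊ : ℝ) ≤ R * J := Nat.floor_le (by positivity)
      rw [div_le_iff₀ hφ] at hn
      nlinarith)
  refine ⟨fun ω => B₁ ω ∧ Real.exp (φ * J) ^ j ≤ d.mo ω ∧
    d.mo ω ≤ Real.exp (φ * J) ^ j * Real.exp (φ * J), fun ω hω => ?_, ?_, ?_⟩
  · have h4 := hω.1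
    rw [hB₁] at h4
    exact hB ω h4.1
  · have h5 : κ * Pe F.p A ≤ Pe F.p B := by
      rw [one_div, ← div_eq_inv_mul, le_div_iff₀ hκ, mul_comm] at hBm
      exact hBm
    rw [div_mul_eq_mul_div, div_le_iff₀ (by positivity)]
    nlinarith
  · refine ⟨(d.mono (min_le_left _ _)).sub fun ω hω => ?_, Real.exp (φ * J) ^ j,
      fun ω hω => hω.2⟩
    have h4 := hω.1
    rw [hB₁] at h4
    exact h4.1

/-! ### Events of pairs -/

theorem q2_swap (F : Fam m J) (A : F.Ω → Prop) (W : ℕ) (E : F.Ω × F.Ω → Prop) :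
    Pe (q2 F A W) (fun e => E e.swap) = Pe (q2 F A W) E := by
  classical
  simp_rw [Pe_eq]
  rw [← Equiv.sum_comp (Equiv.prodComm F.Ω F.Ω)]
  refine Finset.sum_congr rfl fun v _ => ?_
  have h1 : q2 F A W ((Equiv.prodComm F.Ω F.Ω) v) = q2 F A W v := P2_swap _ _ v
  rw [h1]
  simp only [Equiv.prodComm_apply, Prod.swap_swap]

/-- **The slopes are separated** outside four events. -/
theorem fls_le {Ω : Type} [Fintype Ω] {p : Ω → ℝ} (hp : ∀ ω, 0 ≤ p ω) {A B B' T D : Ω → Prop}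
    {x : ℝ} (h0 : Pe p (fun ω => A ω ∧ B ω ∧ T ω ∧ D ω) ≤ x) (h1 : Pe p (fun ω => ¬ A ω) ≤ x)
    (h2 : Pe p (fun ω => ¬ B ω) ≤ x) (h3 : Pe p (fun ω => ¬ T ω) ≤ x)
    (hD : ∀ ω, B' ω → D ω) : Pe p B' ≤ 4 * x := by
  have g1 : Pe p B' ≤ Pe p (fun ω => ¬ A ω) + Pe p (fun ω => A ω ∧ B' ω) := by
    refine Pool.PLN.pe_le_add hp fun ω _ h => ?_
    by_cases hA : A ω
    · exact Or.inr ⟨hA, h⟩
    · exact Or.inl hA
  have g2 : Pe p (fun ω => A ω ∧ B' ω) ≤ Pe p (fun ω => ¬ B ω) +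
      Pe p (fun ω => A ω ∧ B ω ∧ B' ω) := by
    refine Pool.PLN.pe_le_add hp fun ω _ h => ?_
    by_cases hB : B ω
    · exact Or.inr ⟨h.1, hB, h.2⟩
    · exact Or.inl hB
  have g3 : Pe p (fun ω => A ω ∧ B ω ∧ B' ω) ≤ Pe p (fun ω => ¬ T ω) +
      Pe p (fun ω => A ω ∧ B ω ∧ T ω ∧ D ω) := by
    refine Pool.PLN.pe_le_add hp fun ω _ h => ?_
    by_cases hT : T ω
    · exact Or.inr ⟨h.1, h.2.1, hT, hD ω h.2.2⟩
    · exact Or.inl hT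
  linarith

/-! ### The numbers of the sheets -/

theorem PLab.Shv.mono {F : Fam m J} {l : PLab F} {c : ℕ → Fin m} {w₀ h L h' L' : ℕ}
    {lf : l.V₁ → l.V₀ → Fin 4 → ℝ} {e : F.Ω × F.Ω} (hh : h ≤ h') (hL : L' ≤ L)
    (H : l.Shv c w₀ h L lf e) : l.Shv c w₀ h' L' lf e := by
  have h1 : (1 : ℝ) / 2 ^ L ≤ 1 / 2 ^ L' :=
    one_div_le_one_div_of_le (by positivity) (pow_le_pow_right₀ (by norm_num) hL)
  have h2 : (2 : ℝ) ^ h ≤ 2 ^ h' := pow_le_pow_right₀ (by norm_num) hh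
  exact ⟨H.1.trans h1, H.2.1.trans h1, fun i => ⟨(H.2.2 i).1.trans h2, (H.2.2 i).2.trans h2⟩⟩

theorem PLab.Fls.mono {F : Fam m J} {l : PLab F} {h h' : ℕ} {lf : l.V₁ → l.V₀ → Fin 4 → ℝ}
    {e : F.Ω × F.Ω} (hh : h ≤ h') (H : l.Fls h lf e) : l.Fls h' lf e := by
  have h1 : (1 : ℝ) / 2 ^ h' ≤ 1 / 2 ^ h :=
    one_div_le_one_div_of_le (by positivity) (pow_le_pow_right₀ (by norm_num) hh)
  exact h1.trans H

/-- The error of the height. -/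
theorem err_le {M μ : ℝ} {b L Ln L' Ln' : ℕ} (hM : 1 ≤ M) (hL : L + b + 1 ≤ L')
    (hn : Ln + 1 ≤ Ln') (hμ : μ ≤ 2 ^ b * (M + 2 ^ L / 2 ^ Ln)) :
    1 / 2 ^ Ln' + μ / 2 ^ L' ≤ 1 / 2 ^ Ln + M / 2 ^ L := by
  have p1 : (0 : ℝ) < 2 ^ L := by positivity
  have p2 : (0 : ℝ) < 2 ^ Ln := by positivity
  have p3 : (0 : ℝ) < 2 ^ b := by positivity
  have h1 : (1 : ℝ) / 2 ^ Ln' ≤ 1 / 2 ^ Ln / 2 := by
    rw [div_div, ← pow_succ]
    exact one_div_le_one_div_of_le (by positivity) (pow_le_pow_right₀ (by norm_num) hn)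
  have h2 : μ / 2 ^ L' ≤ 2 ^ b * (M + 2 ^ L / 2 ^ Ln) / 2 ^ (L + b + 1) := by
    have h3 : (0 : ℝ) ≤ 2 ^ b * (M + 2 ^ L / 2 ^ Ln) := by positivity
    refine (div_le_div_of_nonneg_right hμ (by positivity)).trans ?_
    exact div_le_div_of_nonneg_left h3 (by positivity) (pow_le_pow_right₀ (by norm_num) hL)
  have h3 : (2 : ℝ) ^ b * (M + 2 ^ L / 2 ^ Ln) / 2 ^ (L + b + 1) =
      M / 2 ^ L / 2 + 1 / 2 ^ Ln / 2 := by
    rw [pow_succ, pow_add]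
    field_simp
  have h4 : (0 : ℝ) ≤ M / 2 ^ L := by positivity
  rw [h3] at h2
  linarith

theorem PLab.Shn.mono {F : Fam m J} {l : PLab F} {c : ℕ → Fin m} {w₀ h L Ln h' L' Ln' b : ℕ}
    {lf : l.V₁ → l.V₀ → Fin 4 → ℝ} {e : F.Ω × F.Ω} {M μ : ℝ} (hM : 1 ≤ M) (hh : h' ≤ h)
    (hL : L + b + 1 ≤ L') (hn : Ln + 1 ≤ Ln') (hμ : μ ≤ 2 ^ b * (M + 2 ^ L / 2 ^ Ln))
    (H : l.Shn c w₀ h' L' Ln' lf μ e) : l.Shn c w₀ h L Ln lf M e := by
  have h1 := err_le hM hL hn hμ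
  have h2 : (2 : ℝ) ^ h' ≤ 2 ^ h := pow_le_pow_right₀ (by norm_num) hh
  exact ⟨H.1.trans h1, H.2.1.trans h1, fun i => ⟨(H.2.2 i).1.trans h2, (H.2.2 i).2.trans h2⟩⟩

/-- The floors. -/
theorem flo_num {x s C : ℝ} {J : ℕ} (hC : 4 ≤ C) (hx : C * s ≤ x) (hJ : 1 ≤ s * J) :
    ⌊(x - C * s) * J⌋₊ + ⌊s * J⌋₊ + 1 ≤ ⌊(x - s) * J⌋₊ := by
  have hJ0 : (0 : ℝ) ≤ J := Nat.cast_nonneg J
  have h1 : (⌊(x - C * s) * J⌋₊ : ℝ) ≤ (x - C * s) * J :=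
    Nat.floor_le (mul_nonneg (by linarith) hJ0)
  have h2 : (⌊s * J⌋₊ : ℝ) ≤ s * J := Nat.floor_le (by linarith)
  refine Nat.le_floor ?_
  push_cast
  have h3 : 4 * (s * J) ≤ C * (s * J) := mul_le_mul_of_nonneg_right hC (by linarith)
  nlinarith

end Pool.PM
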