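import Pool.Agent.H3.PM.Msa

/-!
# Plan M: `PlnMS` in a class

`plnMS_of`: `PlnMS` from `LabM`, `MkS`, `ShvS`, `ShnS`, `FlsS`, `ArrS` and the separation of the
times, for all large constants.
-/

set_option autoImplicit false

namespace Pool.PM

open Finset Real MvPolynomial
open Pool.Agent.H49.Ent Pool.Agent.H32.Dense Pool.STK Pool.KA Pool.KSAT Pool.K2S Pool.PB
  Pool.STAT Pool.GEN Pool.M3F Pool.KM7 Pool.S6C Pool.JPN
open Pool.GRW (TmWn)

variable {m : ℕ}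

/-- **`PlnMS` from its parts.** The constants are given: they may be chosen before the windows. -/
theorem plnMS_of {S : PCl m} {c : ℕ → Fin m} {N : MNum} {K D : ℕ} {R η y cc : ℝ} (hη : 0 < η)
    (hy : 0 ≤ y) (hpos : Bas S (fun _ F A => 0 < Pe F.p A)) (hR : 0 ≤ R)
    (hl : LabM S c N K D) (hk : MkS S c N K D R)
    (ht : TmWn S N.w0) (hw0 : 0 ≤ N.w0) (hw1 : N.w0 < 1) {Ca Cv Cn Cf c₁ : ℝ}
    (hv' : ∀ b : ℝ, 0 < b → Cv * y ≤ b → Cv * b ≤ N.fall → Cv * b ≤ cc →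
      ShvS S c N.toVNum K b (min c₁ (η / 20)))
    (hn' : ∀ b : ℝ, 0 < b → Cn * y ≤ b → Cn * b ≤ N.fall → Cn * b ≤ cc →
      ShnS S c N K D b (min c₁ (η / 10)))
    (hf' : ∀ b : ℝ, 0 < b → Cf * y ≤ b → Cf * b ≤ N.fall → Cf * b ≤ cc →
      FlsS S c N.toVNum K b (Cf * b) (η / 20))
    (ha' : ∀ C s θ : ℝ, Ca ≤ C → 0 < s → 0 < θ → C * y ≤ s → C * (s + θ) ≤ N.fall →
      C * (s + θ) ≤ cc → ArrS S c N K D s s θ C c₁ (η / 10))
    (hcc : cc ≤ N.P1 - N.β 3) (hβ : ∀ i < 3, N.β i + N.fall + 2 * cc ≤ 1) :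
    ∀ C : ℝ, max 4 (max Ca (max Cv (max Cn Cf))) ≤ C →
      PlnMS S c N.β N.w0 N.w1 y N.P1 N.sN N.fall cc η C := by
  classical
  have hη1 : 0 < η / 20 := by positivity
  intro C hC s θ hs hθ hys hmv hcs
  have hC4 : 4 ≤ C := (le_max_left _ _).trans hC
  have hC' := (le_max_right _ _).trans hC
  have hCa : Ca ≤ C := (le_max_left _ _).trans hC'
  have hC'' := (le_max_right _ _).trans hC'
  have hCv : Cv ≤ C := (le_max_left _ _).trans hC''
  have hC3 := (le_max_right _ _).trans hC''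
  have hCn : Cn ≤ C := (le_max_left _ _).trans hC3
  have hCf : Cf ≤ C := (le_max_right _ _).trans hC3
  have hle : ∀ x : ℝ, x ≤ C → x * y ≤ s ∧ x * s ≤ N.fall ∧ x * s ≤ cc := by
    intro x hx
    have h1 : x * y ≤ C * y := mul_le_mul_of_nonneg_right hx hy
    have h2 : x * s ≤ C * s := mul_le_mul_of_nonneg_right hx hs.le
    have h3 : C * s ≤ C * (s + θ) := mul_le_mul_of_nonneg_left (by linarith) (by linarith)
    exact ⟨by linarith, by linarith, by linarith⟩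
  have hCs : C * s ≤ C * (s + θ) := mul_le_mul_of_nonneg_left (by linarith) (by linarith)
  have hs4 : 4 * s ≤ C * s := mul_le_mul_of_nonneg_right hC4 hs.le
  obtain ⟨φv, hφv, Hv⟩ := hv' s hs (hle Cv hCv).1 (hle Cv hCv).2.1 (hle Cv hCv).2.2
  obtain ⟨φn, hφn, Hn⟩ := hn' s hs (hle Cn hCn).1 (hle Cn hCn).2.1 (hle Cn hCn).2.2
  obtain ⟨φf, hφf, Hf⟩ := hf' s hs (hle Cf hCf).1 (hle Cf hCf).2.1 (hle Cf hCf).2.2
  obtain ⟨K', n₀, hK, φa, hφa, Ha⟩ := ha' C s θ hCa hs hθ hys hmv hcs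
  obtain ⟨φ, hφe⟩ : ∃ φ : ℝ, φ = min s (min φv (min φn (min φf φa))) := ⟨_, rfl⟩
  have hφ : 0 < φ := by
    rw [hφe]
    exact lt_min hs (lt_min hφv (lt_min hφn (lt_min hφf hφa)))
  have l0 : φ ≤ s := hφe.trans_le (min_le_left _ _)
  have l1 : φ ≤ φv := hφe.trans_le ((min_le_right _ _).trans (min_le_left _ _))
  have l2 : φ ≤ φn := hφe.trans_le ((min_le_right _ _).trans ((min_le_right _ _).trans
    (min_le_left _ _)))
  have l3 : φ ≤ φf := hφe.trans_le ((min_le_right _ _).trans ((min_le_right _ _).trans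
    ((min_le_right _ _).trans (min_le_left _ _))))
  have l4 : φ ≤ φa := hφe.trans_le ((min_le_right _ _).trans ((min_le_right _ _).trans
    ((min_le_right _ _).trans (min_le_right _ _))))
  obtain ⟨κ, hκ, Hl⟩ := mo_pig hR hl hk φ hφ
  have Ht := tsp_ev ht hw0 hw1 (b := s) hs hη1
  have Hl' : Bas S (fun J F A => ∃ B : F.Ω → Prop, Sub B A ∧ Pe F.p A ≤ (1 / κ) * Pe F.p B ∧
      ∃ (d : MDat N φ K D F c B) (μ : ℝ),
        ∀ ω, B ω → μ ≤ d.mo ω ∧ d.mo ω ≤ μ * Real.exp (φ * J)) := by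
    refine Bas.mono 0 Hl ?_
    rintro J - F A ⟨B, h1, h2, h3⟩
    refine ⟨B, h1, ?_, h3⟩
    rw [one_div, ← div_eq_inv_mul, le_div_iff₀ hκ, mul_comm]
    exact h2
  have H := bas_snd (by positivity) Hl' (hpos.and (Hv.and (Hn.and (Hf.and
    (Ha.and Ht)))))
  obtain ⟨n₁, hn₁⟩ := exists_nat_ge (1 / s)
  refine ⟨K', n₀, hK, κ, hκ, Bas.mono n₁ H ?_⟩
  rintro J hJ F A ⟨A', hsub, hmass, ⟨d, μ, hμ⟩, hp, G1, G2, G3, G4, G5⟩
  have hJ0 : (0 : ℝ) ≤ J := Nat.cast_nonneg J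
  have hsJ : 1 ≤ s * J := by
    have h1 : (n₁ : ℝ) ≤ J := by exact_mod_cast hJ
    rw [div_le_iff₀ hs] at hn₁
    nlinarith
  have hμ' : ∀ x : ℝ, φ ≤ x → ∀ ω, A' ω → μ ≤ d.mo ω ∧ d.mo ω ≤ μ * Real.exp (x * J) := by
    intro x hx ω hω
    obtain ⟨h1, h2⟩ := hμ ω hω
    refine ⟨h1, h2.trans ?_⟩
    have h3 : 1 ≤ d.mo ω := le_max_left _ _
    have h4 : 0 < μ * Real.exp (φ * J) := by linarith
    have h5 : 0 < μ := pos_of_mul_pos_left h4 (Real.exp_pos _).le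
    exact mul_le_mul_of_nonneg_left (Real.exp_le_exp.2 (mul_le_mul_of_nonneg_right hx hJ0)) h5.le
  obtain ⟨lv, hlv⟩ := G1 (d.toVDat.mono l1)
  obtain ⟨ln, hln⟩ := G2 (d.mono l2) μ (hμ' φn l2)
  have hfl := G3 (d.toVDat.mono l3) lv
  obtain ⟨br, a, b₁, χ, M, E₁, har, hcmp, hE⟩ := G4 (d.mono l4) μ lv ln (hμ' φa l4)
    (hlv.trans (min_le_left _ _)) (hln.trans (min_le_left _ _))
  have hlv' := hlv.trans (min_le_right _ _)
  have hln' := hln.trans (min_le_right _ _)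
  have htp := G5 ⌊s * J⌋₊ le_rfl
  have hq := (P2_isLaw (isLaw_cond F.isLaw hp) (slam F ⌊N.w0 * J⌋₊)).nonneg
  have f1 : ⌊s * J⌋₊ ≤ ⌊2 * C * s * J⌋₊ := Nat.floor_le_floor
    (mul_le_mul_of_nonneg_right (by nlinarith) hJ0)
  have f2 : ⌊Cf * s * J⌋₊ ≤ ⌊2 * C * s * J⌋₊ := Nat.floor_le_floor
    (mul_le_mul_of_nonneg_right (mul_le_mul_of_nonneg_right (by linarith) hs.le) hJ0)
  have f3 := flo_num (x := N.fall) hC4 (by linarith) hsJ
  have f4 := flo_num (x := N.P1 - N.β 3) hC4 (by linarith) hsJ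
  refine ⟨A', d.gU, d.U, d.V, d.Q, d.u, d.u', d.z, d.z', fun v u => ![lv v u, ln v u], br, a, b₁,
    χ, M, _, hsub, ?_, fun i hi => ?_,
    fun i hi => ?_, plnM_of (l := d.lb) hp d.lb_ok har ?_ ?_ ?_ ?_ ?_⟩
  · rw [one_div, ← div_eq_inv_mul, le_div_iff₀ hκ, mul_comm] at hmass
    exact hmass
  · refine le_trans ?_ (mul_le_mul_of_nonneg_right l0 hJ0)
    rcases Nat.lt_or_ge i 3 with h | h
    · exact d.numU i h
    · have e1 : i = 3 := by omega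
      subst e1
      exact d.numUN
  · have h1 := (abs_le.1 (d.numU i hi)).2
    have h2 : (⌊(N.fall + C * (s + θ)) * J⌋₊ : ℝ) ≤ (N.fall + C * (s + θ)) * J :=
      Nat.floor_le (mul_nonneg (by nlinarith) hJ0)
    have h3 : (d.gU i : ℝ) + ⌊(N.fall + C * (s + θ)) * J⌋₊ ≤ J := by
      have h4 := hβ i hi
      have h5 : φ * J ≤ s * J := mul_le_mul_of_nonneg_right l0 hJ0
      have h6 : (N.β i + s + N.fall + C * (s + θ)) * J ≤ 1 * J :=
        mul_le_mul_of_nonneg_right (by linarith) hJ0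
      nlinarith
    exact_mod_cast h3
  · refine (Pool.PLN.pe_mono hq fun e _ he h => he ?_).trans (hlv'.trans (by linarith))
    exact PLab.Shv.mono f1 (by omega) h
  · refine (Pool.PLN.pe_le_add hq (B := fun e => ¬ d.lb.Shn c ⌊N.w0 * J⌋₊ ⌊s * J⌋₊
      ⌊(N.fall - s) * J⌋₊ ⌊(N.P1 - N.β 3 - s) * J⌋₊ ln μ e) (C := fun e => ¬ E₁ e)
      fun e _ he => ?_).trans ((add_le_add hln' hE).trans (by linarith))
    by_contra hcon
    push Not at hcon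
    obtain ⟨h1, h2⟩ := hcon
    exact he (PLab.Shn.mono (har.one e h2) f1 f3 (by omega) (hcmp e h2) h1)
  · refine (fls_le hq (x := η / 20) hfl hlv' ?_ htp fun e he h => he ?_).trans (by linarith)
    · refine le_of_eq_of_le ?_ hlv'
      exact q2_swap F A' _ (fun e => ¬ d.lb.Shv c ⌊N.w0 * J⌋₊ ⌊s * J⌋₊ ⌊(N.fall - s) * J⌋₊ lv e)
    · exact PLab.Fls.mono f2 h
  · have := G5 ⌊2 * C * s * J⌋₊ f1
    linarith
  · linarith

end Pool.PM
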