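import Pool.Agent.H3.PM.Msa
import Pool.Agent.H22.M.Atv

/-!
# The falling level: `VPlS` in a class

`vplS_of`: `VPlS` from `LabV`, `ShvS`, `FlsS` and the separation of the times, for all large
constants.
-/

set_option autoImplicit false

namespace Pool.PM

open Finset Real MvPolynomial
open Pool.Agent.H49.Ent Pool.Agent.H32.Dense Pool.STK Pool.KA Pool.KSAT Pool.K2S Pool.PB
  Pool.STAT Pool.GEN Pool.M3F Pool.KM7 Pool.S6C Pool.JPN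
open Pool.GRW (TmWn)

variable {m : ℕ}

/-- **`VPlS` from its parts.** The constants are given: they may be chosen before the windows. -/
theorem vplS_of {S : PCl m} {c : ℕ → Fin m} {N : VNum} {K : ℕ} {η y : ℝ} (hη : 0 < η)
    (hy : 0 ≤ y) (hpos : Bas S (fun _ F A => 0 < Pe F.p A)) (hl : LabV S c N K)
    (ht : TmWn S N.w0) (hw0 : 0 ≤ N.w0) (hw1 : N.w0 < 1) {Cv Cf : ℝ}
    (hv : ∀ b : ℝ, 0 < b → Cv * y ≤ b → Cv * b ≤ N.fall → ShvS S c N K b (η / 20))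
    (hf : ∀ b : ℝ, 0 < b → Cf * y ≤ b → Cf * b ≤ N.fall → FlsS S c N K b (Cf * b) (η / 20))
    (hβ : ∀ i < 3, N.β i + N.fall ≤ 1) :
    ∀ C : ℝ, max 4 (max Cv Cf) ≤ C → VPlS S c N.β N.w0 N.w1 y N.fall η C := by
  classical
  have hη1 : 0 < η / 20 := by positivity
  intro C hC s hs hys hmv
  have hC4 : 4 ≤ C := (le_max_left _ _).trans hC
  have hC' := (le_max_right _ _).trans hC
  have hCv : Cv ≤ C := (le_max_left _ _).trans hC'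
  have hCf : Cf ≤ C := (le_max_right _ _).trans hC'
  have hle : ∀ x : ℝ, x ≤ C → x * y ≤ s ∧ x * s ≤ N.fall := by
    intro x hx
    have h1 : x * y ≤ C * y := mul_le_mul_of_nonneg_right hx hy
    have h2 : x * s ≤ C * s := mul_le_mul_of_nonneg_right hx hs.le
    exact ⟨by linarith, by linarith⟩
  obtain ⟨φv, hφv, Hv⟩ := hv s hs (hle Cv hCv).1 (hle Cv hCv).2
  obtain ⟨φf, hφf, Hf⟩ := hf s hs (hle Cf hCf).1 (hle Cf hCf).2
  obtain ⟨φ, hφe⟩ : ∃ φ : ℝ, φ = min s (min φv φf) := ⟨_, rfl⟩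
  have hφ : 0 < φ := by
    rw [hφe]
    exact lt_min hs (lt_min hφv hφf)
  have l0 : φ ≤ s := hφe.trans_le (min_le_left _ _)
  have l1 : φ ≤ φv := hφe.trans_le ((min_le_right _ _).trans (min_le_left _ _))
  have l2 : φ ≤ φf := hφe.trans_le ((min_le_right _ _).trans (min_le_right _ _))
  obtain ⟨κ, hκ, Hl⟩ := hl φ hφ
  have Ht := tsp_ev ht hw0 hw1 (b := s) hs hη1
  have Hl' : Bas S (fun J F A => ∃ B : F.Ω → Prop, Sub B A ∧ Pe F.p A ≤ (1 / κ) * Pe F.p B ∧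
      Nonempty (VDat N φ K F c B)) := by
    refine Bas.mono 0 Hl ?_
    rintro J - F A ⟨B, h1, h2, h3⟩
    refine ⟨B, h1, ?_, h3⟩
    rw [one_div, ← div_eq_inv_mul, le_div_iff₀ hκ, mul_comm]
    exact h2
  have H := bas_snd (by positivity) Hl' (hpos.and (Hv.and (Hf.and Ht)))
  refine ⟨κ, hκ, Bas.mono 0 H ?_⟩
  rintro J - F A ⟨A', hsub, hmass, ⟨d⟩, hp, G1, G3, G5⟩
  have hJ0 : (0 : ℝ) ≤ J := Nat.cast_nonneg J
  obtain ⟨lv, hlv⟩ := G1 (d.mono l1)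
  have hfl := G3 (d.mono l2) lv
  have htp := G5 ⌊s * J⌋₊ le_rfl
  have hq := (P2_isLaw (isLaw_cond F.isLaw hp) (slam F ⌊N.w0 * J⌋₊)).nonneg
  have f1 : ⌊s * J⌋₊ ≤ ⌊2 * C * s * J⌋₊ := Nat.floor_le_floor
    (mul_le_mul_of_nonneg_right (by nlinarith) hJ0)
  have f2 : ⌊Cf * s * J⌋₊ ≤ ⌊2 * C * s * J⌋₊ := Nat.floor_le_floor
    (mul_le_mul_of_nonneg_right (mul_le_mul_of_nonneg_right (by linarith) hs.le) hJ0)
  have f3 : ⌊(N.fall - C * s) * J⌋₊ ≤ ⌊(N.fall - s) * J⌋₊ := Nat.floor_le_floor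
    (mul_le_mul_of_nonneg_right (by nlinarith) hJ0)
  have hfl' : Pe (q2 F A' ⌊N.w0 * J⌋₊) (fun e => ¬ d.lb.Fls ⌊2 * C * s * J⌋₊ lv e) ≤
      4 * (η / 20) := by
    refine fls_le hq (x := η / 20) hfl hlv ?_ htp fun e he h => he ?_
    · refine le_of_eq_of_le ?_ hlv
      exact q2_swap F A' _ (fun e => ¬ d.lb.Shv c ⌊N.w0 * J⌋₊ ⌊s * J⌋₊ ⌊(N.fall - s) * J⌋₊ lv e)
    · exact PLab.Fls.mono f2 h
  have hsh' : Pe (q2 F A' ⌊N.w0 * J⌋₊) (fun e => ¬ d.lb.Shv c ⌊N.w0 * J⌋₊ ⌊2 * C * s * J⌋₊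
      ⌊(N.fall - C * s) * J⌋₊ lv e) ≤ η / 20 :=
    (Pool.PLN.pe_mono hq fun e _ he h => he (PLab.Shv.mono f1 f3 h)).trans hlv
  refine ⟨A', d.gU, d.U, d.V, d.Q, d.u, d.u', d.z, d.z', lv,
    fun e => d.lb.Shv c ⌊N.w0 * J⌋₊ ⌊2 * C * s * J⌋₊ ⌊(N.fall - C * s) * J⌋₊ lv e ∧
      d.lb.Fls ⌊2 * C * s * J⌋₊ lv e, hsub, ?_, fun i hi => (d.numU i hi).trans
    (mul_le_mul_of_nonneg_right l0 hJ0), fun i hi => ?_, ?_⟩
  · rw [one_div, ← div_eq_inv_mul, le_div_iff₀ hκ, mul_comm] at hmass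
    exact hmass
  · have h1 := (abs_le.1 (d.numU i hi)).2
    have h2 : (⌊(N.fall - C * s) * J⌋₊ : ℝ) ≤ (N.fall - C * s) * J :=
      Nat.floor_le (mul_nonneg (by linarith) hJ0)
    have h3 : (d.gU i : ℝ) + ⌊(N.fall - C * s) * J⌋₊ ≤ J := by
      have h4 := hβ i hi
      have h5 : φ * J ≤ s * J := mul_le_mul_of_nonneg_right l0 hJ0
      have h7 : 4 * s ≤ C * s := mul_le_mul_of_nonneg_right hC4 hs.le
      have h6 : (N.β i + s + N.fall - C * s) * J ≤ 1 * J :=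
        mul_le_mul_of_nonneg_right (by linarith) hJ0
      nlinarith
    exact_mod_cast h3
  · refine ⟨d.tri, fun v i _ => d.aff v i, d.clsU, d.lab.cls, d.posU, ?_, fun e he => he.1.1,
      fun e he => he.1.2.1, fun e he i => he.1.2.2 i, fun e he => he.2⟩
    have hu : Pe (q2 F A' ⌊N.w0 * J⌋₊) (fun _ => True) ≤
        Pe (q2 F A' ⌊N.w0 * J⌋₊) (fun e => ¬ d.lb.Shv c ⌊N.w0 * J⌋₊ ⌊2 * C * s * J⌋₊
          ⌊(N.fall - C * s) * J⌋₊ lv e) +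
        (Pe (q2 F A' ⌊N.w0 * J⌋₊) (fun e => ¬ d.lb.Fls ⌊2 * C * s * J⌋₊ lv e) +
        Pe (q2 F A' ⌊N.w0 * J⌋₊) (fun e => d.lb.Shv c ⌊N.w0 * J⌋₊ ⌊2 * C * s * J⌋₊
          ⌊(N.fall - C * s) * J⌋₊ lv e ∧ d.lb.Fls ⌊2 * C * s * J⌋₊ lv e)) := by
      refine (Pool.PLN.pe_le_add hq (B := fun e => ¬ d.lb.Shv c ⌊N.w0 * J⌋₊ ⌊2 * C * s * J⌋₊
          ⌊(N.fall - C * s) * J⌋₊ lv e) (C := fun e => d.lb.Shv c ⌊N.w0 * J⌋₊ ⌊2 * C * s * J⌋₊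
          ⌊(N.fall - C * s) * J⌋₊ lv e) fun e _ _ => ?_).trans
        (add_le_add le_rfl (Pool.PLN.pe_le_add hq fun e _ h => ?_))
      · by_cases h : d.lb.Shv c ⌊N.w0 * J⌋₊ ⌊2 * C * s * J⌋₊ ⌊(N.fall - C * s) * J⌋₊ lv e
        · exact Or.inr h
        · exact Or.inl h
      · by_cases h' : d.lb.Fls ⌊2 * C * s * J⌋₊ lv e
        · exact Or.inr ⟨h, h'⟩
        · exact Or.inl h'
    rw [Pe_univ (P2_isLaw (isLaw_cond F.isLaw hp) (slam F ⌊N.w0 * J⌋₊))] at hu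
    have h9 : 4 * (η / 20) + η / 20 ≤ η := by linarith
    linarith

end Pool.PM
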